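import Pool.Agent.LibRD54.Med

/-!
Block combinatorics in a free product of groups of order two indexed by `F × ZMod 2`.
-/

set_option autoImplicit false

namespace Pool.Agent.LibRD

open Pool.Agent.RD54

section Free

variable {V : Type*}

theorem bot_ldesc_unique {w : Rac (⊥ : SimpleGraph V)} {x y : V} (hx : LDesc w x)
    (hy : LDesc w y) : x = y := by
  by_contra h
  have := adj_of_desc (ldesc_iff_desc_inv.1 hx) (ldesc_iff_desc_inv.1 hy) h
  simp at this

theorem ldesc_cons {l : List V} {x : V} {L : SimpleGraph V}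
    (h : len (wp L (x :: l)) = (x :: l).length) : LDesc (wp L (x :: l)) x := by
  rw [ldesc_iff]
  have h1 : gen L x * wp L (x :: l) = wp L l := by
    rw [wp_cons, gen_mul_gen_cancel]
  have h2 := len_wp_le (L := L) l
  have h3 := len_gen_mul (wp L (x :: l)) x
  rw [h1] at h3 ⊢
  simp only [List.length_cons] at h
  omega

/-- Words without equal neighbours are reduced in the free product. -/
theorem len_of_chain (l : List V) (h : l.IsChain (· ≠ ·)) :
    len (wp (⊥ : SimpleGraph V) l) = l.length := by
  induction l with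
  | nil => simp
  | cons x l ih =>
    have hl := ih h.tail
    have hnd : ¬ LDesc (wp (⊥ : SimpleGraph V) l) x := by
      intro hd
      cases l with
      | nil => simp [LDesc] at hd
      | cons y l' =>
        have := bot_ldesc_unique hd (ldesc_cons hl)
        rw [List.isChain_cons_cons] at h
        exact h.1 this
    rw [not_ldesc_iff] at hnd
    rw [wp_cons, hnd, hl, List.length_cons]

theorem chain_of_len (l : List V) (h : len (wp (⊥ : SimpleGraph V) l) = l.length) :
    l.IsChain (· ≠ ·) := by
  induction l with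
  | nil => simp
  | cons x l ih =>
    have h1 : len (wp (⊥ : SimpleGraph V) l) = l.length := by
      have h2 := len_wp_le (L := (⊥ : SimpleGraph V)) l
      have h3 := len_gen_mul (wp (⊥ : SimpleGraph V) l) x
      rw [wp_cons, List.length_cons] at h
      omega
    have h4 := ih h1
    cases l with
    | nil => simp
    | cons y l' =>
      rw [List.isChain_cons_cons]
      refine ⟨fun hxy => ?_, h4⟩
      subst hxy
      rw [wp_cons, wp_cons, gen_mul_gen_cancel] at h
      have := len_wp_le (L := (⊥ : SimpleGraph V)) l'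
      simp only [List.length_cons] at h
      omega

theorem chain_unique : ∀ (l l' : List V), l.IsChain (· ≠ ·) → l'.IsChain (· ≠ ·) →
    wp (⊥ : SimpleGraph V) l = wp (⊥ : SimpleGraph V) l' → l = l' := by
  intro l
  induction l with
  | nil =>
    intro l' _ h' h
    have h1 := len_of_chain l' h'
    rw [← h] at h1
    simp only [wp_nil, len_one] at h1
    exact (List.eq_nil_of_length_eq_zero h1.symm).symm
  | cons x l ih =>
    intro l' hc h' h
    cases l' with
    | nil =>
      have h1 := len_of_chain _ hc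
      rw [h] at h1
      simp at h1
    | cons y l' =>
      have h1 := ldesc_cons (len_of_chain _ hc)
      have h2 := ldesc_cons (len_of_chain _ h')
      rw [h] at h1
      have hxy := bot_ldesc_unique h1 h2
      subst hxy
      rw [wp_cons, wp_cons, mul_right_inj] at h
      rw [ih l' hc.tail h'.tail h]

theorem eq_take (l : List V) (hl : l.IsChain (· ≠ ·)) (u : Rac (⊥ : SimpleGraph V))
    (hu : len (wp ⊥ l) = len u + len (u⁻¹ * wp ⊥ l)) : u = wp ⊥ (l.take (len u)) := by
  obtain ⟨l1, h1, h1'⟩ := exists_reduced u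
  obtain ⟨l2, h2, h2'⟩ := exists_reduced (u⁻¹ * wp ⊥ l)
  have h3 : wp (⊥ : SimpleGraph V) (l1 ++ l2) = wp ⊥ l := by
    rw [wp_append, h1, h2, mul_inv_cancel_left]
  have h4 : l1 ++ l2 = l := by
    apply chain_unique _ _ _ hl h3
    apply chain_of_len
    rw [h3, hu, List.length_append, h1', h2']
  rw [← h4, ← h1', List.take_left', h1]
  rfl

theorem take_eq_take {l l' : List V} (hl : l.IsChain (· ≠ ·)) (hl' : l'.IsChain (· ≠ ·))
    {u : Rac (⊥ : SimpleGraph V)}
    (hu : len (wp ⊥ l) = len u + len (u⁻¹ * wp ⊥ l))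
    (hu' : len (wp ⊥ l') = len u + len (u⁻¹ * wp ⊥ l')) :
    l.take (len u) = l'.take (len u) := by
  apply chain_unique _ _ (hl.take _) (hl'.take _)
  rw [← eq_take l hl u hu, ← eq_take l' hl' u hu']

end Free

/-! ### blocks -/

section Blocks

variable {F : Type*} [Group F]

/-- Separation properties of the sites. -/
structure SiteOK (site : ℕ → ℕ → F) : Prop where
  inj0 : ∀ i j, site i 0 = site j 0 → i = j
  ne : ∀ i k, site i k ≠ site i (k + 1)
  indep : ∀ i j k, site i (k + 1) = site j (k + 1)
  step : ∀ i j N N', (site i (N + 1))⁻¹ * site i N = (site j (N' + 1))⁻¹ * site j N' → N = N'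

/-- the word of a leg -/
def lam (site : ℕ → ℕ → F) (g : F) (e : List (ZMod 2)) (i : ℕ) : List (F × ZMod 2) :=
  e.mapIdx fun k δ => (g * site i k, δ)

@[simp] theorem length_lam (site : ℕ → ℕ → F) (g : F) (e : List (ZMod 2)) (i : ℕ) :
    (lam site g e i).length = e.length := by simp [lam]

theorem getElem_lam (site : ℕ → ℕ → F) (g : F) (e : List (ZMod 2)) (i k : ℕ)
    (h : k < (lam site g e i).length) :
    (lam site g e i)[k] = (g * site i k, e[k]'(by simpa using h)) := by
  simp [lam]

/-- the base group -/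
abbrev W1 (F : Type*) : Type _ := Rac (⊥ : SimpleGraph (F × ZMod 2))

/-- block points -/
noncomputable def bpt (site : ℕ → ℕ → F) (o : W1 F) (g : F) (e : List (ZMod 2)) (i : ℕ) : W1 F :=
  o * wp ⊥ (lam site g e i)

/-- two different points of one block -/
def Bl (site : ℕ → ℕ → F) (x y : W1 F) (o : W1 F) (g : F) (e : List (ZMod 2)) : Prop :=
  ∃ i j, i < e.length ∧ j < e.length ∧ i ≠ j ∧ x = bpt site o g e i ∧ y = bpt site o g e j

/-- the word between two block points -/
def pw (site : ℕ → ℕ → F) (g : F) (e : List (ZMod 2)) (i j : ℕ) : List (F × ZMod 2) :=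
  (lam site g e i).reverse ++ lam site g e j

variable {site : ℕ → ℕ → F}

theorem chain_lam (hs : SiteOK site) (g : F) (e : List (ZMod 2)) (i : ℕ) :
    (lam site g e i).IsChain (· ≠ ·) := by
  rw [List.isChain_iff_getElem]
  intro k hk
  rw [getElem_lam, getElem_lam]
  intro h
  have h1 := congrArg Prod.fst h
  simp only [mul_right_inj] at h1
  exact hs.ne i k h1

theorem chain_pw (hs : SiteOK site) (g : F) (e : List (ZMod 2)) {i j : ℕ} (hij : i ≠ j)
    : (pw site g e i j).IsChain (· ≠ ·) := by
  unfold pw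
  rw [List.isChain_append]
  refine ⟨?_, chain_lam hs g e j, ?_⟩
  · rw [List.isChain_reverse]
    exact (chain_lam hs g e i).imp (fun _ _ h => Ne.symm h)
  · intro x hx y hy
    cases e with
    | nil => simp [lam] at hx
    | cons a e =>
      have h1 : (lam site g (a :: e) i).reverse.getLast? = some (g * site i 0, a) := by
        rw [List.getLast?_reverse]; simp [lam]
      have h2 : (lam site g (a :: e) j).head? = some (g * site j 0, a) := by simp [lam]
      rw [h1] at hx
      rw [h2] at hy
      simp only [Option.mem_def, Option.some.injEq] at hx hy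
      rw [← hx, ← hy]
      intro h
      have h3 := congrArg Prod.fst h
      simp only [mul_right_inj] at h3
      exact hij (hs.inj0 _ _ h3)

theorem inv_bpt_mul (o : W1 F) (g : F) (e : List (ZMod 2)) (i j : ℕ) :
    (bpt site o g e i)⁻¹ * bpt site o g e j = wp ⊥ (pw site g e i j) := by
  unfold bpt pw
  rw [wp_append, wp_reverse]
  group

theorem length_pw (g : F) (e : List (ZMod 2)) (i j : ℕ) :
    (pw site g e i j).length = 2 * e.length := by
  unfold pw; simp; ring

theorem len_inv_bpt_mul (hs : SiteOK site) (o : W1 F) (g : F) (e : List (ZMod 2)) {i j : ℕ}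
    (hij : i ≠ j) : len ((bpt site o g e i)⁻¹ * bpt site o g e j) = 2 * e.length := by
  rw [inv_bpt_mul, len_of_chain _ (chain_pw hs g e hij), length_pw]

theorem bpt_inj (hs : SiteOK site) {o : W1 F} {g : F} {e : List (ZMod 2)} (he : e ≠ []) {i j : ℕ}
    (h : bpt site o g e i = bpt site o g e j) : i = j := by
  by_contra hij
  have h1 := len_inv_bpt_mul hs o g e hij
  rw [h, inv_mul_cancel, len_one] at h1
  have : 0 < e.length := List.length_pos_iff.2 he
  omega

theorem Bl.symm {x y o : W1 F} {g : F} {e : List (ZMod 2)} (h : Bl site x y o g e) :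
    Bl site y x o g e := by
  obtain ⟨i, j, hi, hj, hij, hx, hy⟩ := h
  exact ⟨j, i, hj, hi, hij.symm, hy, hx⟩

theorem Bl.two_le {x y o : W1 F} {g : F} {e : List (ZMod 2)} (h : Bl site x y o g e) :
    2 ≤ e.length := by
  obtain ⟨i, j, hi, hj, hij, -, -⟩ := h
  omega

theorem Bl.len (hs : SiteOK site) {x y o : W1 F} {g : F} {e : List (ZMod 2)}
    (h : Bl site x y o g e) : len (x⁻¹ * y) = 2 * e.length := by
  obtain ⟨i, j, hi, hj, hij, rfl, rfl⟩ := h
  exact len_inv_bpt_mul hs o g e hij

theorem Bl.ne (hs : SiteOK site) {x y o : W1 F} {g : F} {e : List (ZMod 2)}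
    (h : Bl site x y o g e) : x ≠ y := by
  intro hxy
  have h1 := h.len hs
  have h2 := h.two_le
  rw [hxy, inv_mul_cancel, len_one] at h1
  omega

/-- Key comparison lemma. -/
theorem key (hs : SiteOK site) {x y z m : W1 F} {o o' : W1 F} {g g' : F} {e e' : List (ZMod 2)}
    (h : Bl site x y o g e) (h' : Bl site x z o' g' e')
    (hm : len (x⁻¹ * y) = len (x⁻¹ * m) + len (m⁻¹ * y))
    (hm' : len (x⁻¹ * z) = len (x⁻¹ * m) + len (m⁻¹ * z)) (h2 : 2 ≤ len (x⁻¹ * m)) :
    e.length = e'.length ∧ (e.length ≤ len (x⁻¹ * m) → o = o' ∧ g = g' ∧ e = e') := by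
  obtain ⟨i, j, hi, hj, hij, hx, hy⟩ := h
  obtain ⟨i', j', hi', hj', hij', hx', hz⟩ := h'
  have e1 : x⁻¹ * y = wp ⊥ (pw site g e i j) := by rw [hx, hy, inv_bpt_mul]
  have e2 : x⁻¹ * z = wp ⊥ (pw site g' e' i' j') := by rw [hx', hz, inv_bpt_mul]
  have e3 : m⁻¹ * y = (x⁻¹ * m)⁻¹ * wp ⊥ (pw site g e i j) := by rw [← e1]; group
  have e4 : m⁻¹ * z = (x⁻¹ * m)⁻¹ * wp ⊥ (pw site g' e' i' j') := by rw [← e2]; group
  rw [e1, e3] at hm
  rw [e2, e4] at hm'
  have hc := chain_pw hs g e hij
  have hc' := chain_pw hs g' e' hij'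
  have ht := take_eq_take hc hc' hm hm'
  set d := len (x⁻¹ * m) with hd
  rw [len_of_chain _ hc, length_pw] at hm
  rw [len_of_chain _ hc', length_pw] at hm'
  have hdl : d ≤ (pw site g e i j).length := by rw [length_pw]; omega
  have hdl' : d ≤ (pw site g' e' i' j').length := by rw [length_pw]; omega
  -- letters agree
  have hget : ∀ k (hk : k < d), (pw site g e i j)[k]'(by omega) =
      (pw site g' e' i' j')[k]'(by omega) := by
    intro k hk
    have h5 : k < ((pw site g e i j).take d).length := by
      rw [List.length_take]; omega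
    have h6 : k < ((pw site g' e' i' j').take d).length := by
      rw [List.length_take]; omega
    have h7 : ((pw site g e i j).take d)[k] = ((pw site g' e' i' j').take d)[k] := by
      simp only [ht]
    rw [List.getElem_take, List.getElem_take] at h7
    exact h7
  have hrev : ∀ (g : F) (e : List (ZMod 2)) (i j k : ℕ) (hk : k < e.length)
      (hk2 : k < (pw site g e i j).length), (pw site g e i j)[k] =
      (g * site i (e.length - 1 - k), e[e.length - 1 - k]'(by omega)) := by
    intro g e i j k hk hk2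
    have hk3 : k < (lam site g e i).reverse.length := by simpa using hk
    have c0 : (pw site g e i j)[k] = (lam site g e i).reverse[k] :=
      List.getElem_append_left hk3
    rw [c0, List.getElem_reverse, getElem_lam]
    simp
  have hN : 2 ≤ e.length := by omega
  have hN' : 2 ≤ e'.length := by omega
  have g0 := hget 0 (by omega)
  have g1 := hget 1 (by omega)
  rw [hrev g e i j 0 (by omega), hrev g' e' i' j' 0 (by omega)] at g0
  rw [hrev g e i j 1 (by omega), hrev g' e' i' j' 1 (by omega)] at g1
  have s0 := congrArg Prod.fst g0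
  have s1 := congrArg Prod.fst g1
  simp only at s0 s1
  obtain ⟨n, hn⟩ : ∃ n, e.length = n + 2 := ⟨e.length - 2, by omega⟩
  obtain ⟨n', hn'⟩ : ∃ n', e'.length = n' + 2 := ⟨e'.length - 2, by omega⟩
  have a1 : e.length - 1 - 0 = n + 1 := by omega
  have a2 : e.length - 1 - 1 = n := by omega
  have a3 : e'.length - 1 - 0 = n' + 1 := by omega
  have a4 : e'.length - 1 - 1 = n' := by omega
  rw [a1, a3] at s0
  rw [a2, a4] at s1
  have hstep : (site i (n + 1))⁻¹ * site i n = (site i' (n' + 1))⁻¹ * site i' n' := by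
    have b1 : (site i (n + 1))⁻¹ * site i n = (g * site i (n + 1))⁻¹ * (g * site i n) := by group
    have b2 : (site i' (n' + 1))⁻¹ * site i' n' =
      (g' * site i' (n' + 1))⁻¹ * (g' * site i' n') := by group
    rw [b1, b2, s0, s1]
  have hnn : n = n' := hs.step _ _ _ _ hstep
  subst hnn
  have hlen : e.length = e'.length := by omega
  refine ⟨hlen, fun hde => ?_⟩
  have hgg : g = g' := by
    rw [hs.indep i i' n] at s0
    exact mul_right_cancel s0
  subst hgg
  -- all letters of the leg agree
  have hall : ∀ k (hk : k < e.length), (g * site i k, e[k]) =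
      (g * site i' k, e'[k]'(by omega)) := by
    intro k hk
    have c1 := hget (e.length - 1 - k) (by omega)
    rw [hrev g e i j _ (by omega), hrev g e' i' j' _ (by omega)] at c1
    have c2 : e.length - 1 - (e.length - 1 - k) = k := by omega
    have c3 : e'.length - 1 - (e.length - 1 - k) = k := by omega
    simp only [c2, c3] at c1
    exact c1
  have hee : e = e' := by
    apply List.ext_getElem hlen
    intro k h1 h2
    exact congrArg Prod.snd (hall k h1)
  subst hee
  have hii : i = i' := by
    have c4 := congrArg Prod.fst (hall 0 (by omega))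
    simp only [mul_right_inj] at c4
    exact hs.inj0 _ _ c4
  subst hii
  refine ⟨?_, rfl, rfl⟩
  rw [hx] at hx'
  unfold bpt at hx'
  exact mul_right_cancel hx'

/-- Two points determine the block. -/
theorem Bl.unique (hs : SiteOK site) {x y : W1 F} {o o' : W1 F} {g g' : F} {e e' : List (ZMod 2)}
    (h : Bl site x y o g e) (h' : Bl site x y o' g' e') : o = o' ∧ g = g' ∧ e = e' := by
  have h1 := h.len hs
  have h2 := h.two_le
  exact (key hs (m := y) h h' (by simp) (by simp) (by omega)).2 (by omega)

/-- Triangles lie in one block. -/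
theorem triangle (hs : SiteOK site) {x y z : W1 F} {o1 o2 o3 : W1 F} {g1 g2 g3 : F}
    {e1 e2 e3 : List (ZMod 2)} (hxy : Bl site x y o1 g1 e1) (hyz : Bl site y z o2 g2 e2)
    (hxz : Bl site x z o3 g3 e3) :
    (o1 = o2 ∧ g1 = g2 ∧ e1 = e2) ∧ (o1 = o3 ∧ g1 = g3 ∧ e1 = e3) := by
  obtain ⟨m, m1, m2, m3⟩ := exists_med x y z
  have l1 := hxy.len hs
  have l2 := hyz.len hs
  have l3 := hxz.len hs
  have t1 := hxy.two_le
  have t2 := hyz.two_le
  have t3 := hxz.two_le
  have s1 : len (m⁻¹ * y) = len (y⁻¹ * m) := len_symm m y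
  have s2 : len (m⁻¹ * z) = len (z⁻¹ * m) := len_symm m z
  have s3 : len (m⁻¹ * x) = len (x⁻¹ * m) := len_symm m x
  have s4 : len (y⁻¹ * x) = len (x⁻¹ * y) := len_symm y x
  have s5 : len (z⁻¹ * x) = len (x⁻¹ * z) := len_symm z x
  have s6 : len (z⁻¹ * y) = len (y⁻¹ * z) := len_symm z y
  have kx := key hs (m := m) hxy hxz m1 m2
  have ky := key hs (m := m) hxy.symm hyz (by omega) (by omega)
  have kz := key hs (m := m) hxz.symm hyz.symm (by omega) (by omega)
  have hlen : e1.length = e3.length ∧ e1.length = e2.length := by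
    by_cases c1 : 2 ≤ len (x⁻¹ * m)
    · by_cases c2 : 2 ≤ len (y⁻¹ * m)
      · exact ⟨(kx c1).1, (ky c2).1⟩
      · have c3 : 2 ≤ len (z⁻¹ * m) := by omega
        have := (kx c1).1
        have := (kz c3).1
        omega
    · have c2 : 2 ≤ len (y⁻¹ * m) := by omega
      have c3 : 2 ≤ len (z⁻¹ * m) := by omega
      have := (ky c2).1
      have := (kz c3).1
      omega
  obtain ⟨q1, q2⟩ := hlen
  have dx : len (x⁻¹ * m) = e1.length := by omega
  have dy : len (y⁻¹ * m) = e1.length := by omega
  exact ⟨(ky (by omega)).2 (by omega), (kx (by omega)).2 (by omega)⟩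

/-- The commutation graph. -/
def Lam (site : ℕ → ℕ → F) : SimpleGraph (W1 F) where
  Adj x y := x ≠ y ∧ ∃ o g e, Bl site x y o g e
  symm := by
    constructor
    intro x y h
    obtain ⟨h1, o, g, e, h2⟩ := h
    exact ⟨h1.symm, o, g, e, h2.symm⟩
  loopless := ⟨fun x h => h.1 rfl⟩

theorem Lam_adj_iff (hs : SiteOK site) {x y : W1 F} :
    (Lam site).Adj x y ↔ ∃ o g e, Bl site x y o g e :=
  ⟨fun h => h.2, fun ⟨o, g, e, h⟩ => ⟨h.ne hs, o, g, e, h⟩⟩

/-- the points of a block -/
def bset (site : ℕ → ℕ → F) (o : W1 F) (g : F) (e : List (ZMod 2)) : Set (W1 F) :=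
  {u | ∃ i, i < e.length ∧ u = bpt site o g e i}

theorem Bl.left_mem {x y o : W1 F} {g : F} {e : List (ZMod 2)} (h : Bl site x y o g e) :
    x ∈ bset site o g e := by
  obtain ⟨i, j, hi, hj, hij, hx, hy⟩ := h
  exact ⟨i, hi, hx⟩

theorem bl_of_mem {x y o : W1 F} {g : F} {e : List (ZMod 2)} (hx : x ∈ bset site o g e)
    (hy : y ∈ bset site o g e) (hne : x ≠ y) : Bl site x y o g e := by
  obtain ⟨i, hi, hx⟩ := hx
  obtain ⟨j, hj, hy⟩ := hy
  refine ⟨i, j, hi, hj, ?_, hx, hy⟩
  rintro rfl
  exact hne (hx.trans hy.symm)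

/-- If `x` and `y` are adjacent then the vertices equal or adjacent to both are exactly the points
of the block. -/
theorem blk_eq (hs : SiteOK site) {x y o : W1 F} {g : F} {e : List (ZMod 2)}
    (h : Bl site x y o g e) :
    {u | (u = x ∨ (Lam site).Adj u x) ∧ (u = y ∨ (Lam site).Adj u y)} = bset site o g e := by
  have hne := h.ne hs
  ext u
  constructor
  · rintro ⟨h1, h2⟩
    rcases h1 with rfl | h1
    · exact h.left_mem
    rcases h2 with rfl | h2
    · exact h.symm.left_mem
    obtain ⟨_, o1, g1, e1, b1⟩ := h1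
    obtain ⟨_, o2, g2, e2, b2⟩ := h2
    have := (triangle hs b1 h b2).1
    obtain ⟨rfl, rfl, rfl⟩ := this
    exact b1.left_mem
  · intro hu
    constructor
    · by_cases hux : u = x
      · exact Or.inl hux
      · exact Or.inr ⟨hux, o, g, e, bl_of_mem hu h.left_mem hux⟩
    · by_cases huy : u = y
      · exact Or.inl huy
      · exact Or.inr ⟨huy, o, g, e, bl_of_mem hu h.symm.left_mem huy⟩

theorem bset_clique {o : W1 F} {g : F} {e : List (ZMod 2)} {x y : W1 F}
    (hx : x ∈ bset site o g e) (hy : y ∈ bset site o g e) (hne : x ≠ y) :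
    (Lam site).Adj x y := ⟨hne, o, g, e, bl_of_mem hx hy hne⟩

theorem bset_finite (o : W1 F) (g : F) (e : List (ZMod 2)) : (bset site o g e).Finite := by
  have : bset site o g e = (fun i => bpt site o g e i) '' (Set.Iio e.length) := by
    ext u; simp [bset, eq_comm]
  rw [this]
  exact (Set.finite_Iio _).image _

theorem ncard_bset_le (o : W1 F) (g : F) (e : List (ZMod 2)) :
    (bset site o g e).ncard ≤ e.length := by
  have : bset site o g e = (fun i => bpt site o g e i) '' (Set.Iio e.length) := by
    ext u; simp [bset, eq_comm]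
  rw [this]
  refine (Set.ncard_image_le (Set.finite_Iio _)).trans (le_of_eq ?_)
  rw [Set.ncard_eq_toFinset_card' (Set.Iio e.length)]
  simp

theorem ncard_bset (hs : SiteOK site) (o : W1 F) (g : F) (e : List (ZMod 2)) :
    (bset site o g e).ncard = e.length := by
  have : bset site o g e = (fun i => bpt site o g e i) '' (Set.Iio e.length) := by
    ext u; simp [bset, eq_comm]
  rw [this, Set.InjOn.ncard_image]
  · rw [Set.ncard_eq_toFinset_card' (Set.Iio e.length)]
    simp
  · intro i hi j hj hij
    refine bpt_inj hs ?_ hij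
    rintro rfl
    simp at hi

/-- Cliques in balls are small. -/
theorem clique_card (hs : SiteOK site) (C : Finset (W1 F)) (r : ℕ) (hr : ∀ x ∈ C, len x ≤ r)
    (hC : ∀ x ∈ C, ∀ y ∈ C, x ≠ y → (Lam site).Adj x y) : C.card ≤ r + 1 := by
  by_cases h1 : C.card ≤ 1
  · omega
  · obtain ⟨x, hx, y, hy, hxy⟩ := Finset.one_lt_card.1 (not_le.1 h1)
    obtain ⟨_, o, g, e, b⟩ := hC x hx y hy hxy
    have hsub : (C : Set (W1 F)) ⊆ bset site o g e := by
      intro u hu
      rw [← blk_eq hs b]
      constructor
      · by_cases hux : u = x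
        · exact Or.inl hux
        · exact Or.inr (hC u hu x hx hux)
      · by_cases huy : u = y
        · exact Or.inl huy
        · exact Or.inr (hC u hu y hy huy)
    have h2 := Set.ncard_le_ncard hsub (bset_finite o g e)
    rw [Set.ncard_coe_finset] at h2
    have h3 := ncard_bset_le (site := site) o g e
    have h4 := b.len hs
    have h5 := len_mul_le x⁻¹ y
    rw [len_inv] at h5
    have h6 := hr x hx
    have h7 := hr y hy
    omega

end Blocks

end Pool.Agent.LibRD
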