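import Mathlib

/-!
Criterion for rapid decay through equivariant families of centres.
-/

set_option autoImplicit false

open MeasureTheory
open scoped ENNReal

namespace Pool.Agent.LibRD

theorem ennreal_rpow_two (x : ℝ≥0∞) : x ^ (2 : ℝ) = x ^ 2 := by
  rw [← ENNReal.rpow_natCast]; norm_num

theorem ennreal_sqrt_sq (x : ℝ≥0∞) : (x ^ (1 / (2 : ℝ))) ^ 2 = x := by
  rw [← ennreal_rpow_two, ← ENNReal.rpow_mul]
  norm_num

/-- Cauchy-Schwarz for the lower integral. -/
theorem cs_lintegral {α : Type*} [MeasurableSpace α] (μ : Measure α) {f g : α → ℝ≥0∞}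
    (hf : AEMeasurable f μ) (hg : AEMeasurable g μ) :
    (∫⁻ a, f a * g a ∂μ) ^ 2 ≤ (∫⁻ a, f a ^ 2 ∂μ) * (∫⁻ a, g a ^ 2 ∂μ) := by
  have h := ENNReal.lintegral_mul_le_Lp_mul_Lq μ (p := 2) (q := 2)
    (Real.HolderConjugate.two_two) hf hg
  have h2 := pow_le_pow_left' h 2
  refine h2.trans (le_of_eq ?_)
  rw [mul_pow, ennreal_sqrt_sq, ennreal_sqrt_sq]
  simp only [ennreal_rpow_two]

theorem cs_tsum (f g : ℕ → ℝ≥0∞) :
    (∑' n, f n * g n) ^ 2 ≤ (∑' n, f n ^ 2) * (∑' n, g n ^ 2) := by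
  have := cs_lintegral (Measure.count : Measure ℕ) (f := f) (g := g)
    (measurable_of_countable _).aemeasurable (measurable_of_countable _).aemeasurable
  simpa [lintegral_count] using this

theorem cs_sum {ι : Type*} (s : Finset ι) (f : ι → ℝ≥0∞) :
    (∑ i ∈ s, f i) ^ 2 ≤ s.card * ∑ i ∈ s, f i ^ 2 := by
  have h := ENNReal.inner_le_Lp_mul_Lq s (fun _ => (1 : ℝ≥0∞)) f (Real.HolderConjugate.two_two)
  have h2 := pow_le_pow_left' h 2
  rw [mul_pow, ennreal_sqrt_sq, ennreal_sqrt_sq] at h2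
  simpa [ennreal_rpow_two] using h2

set_option linter.unusedSectionVars false

variable {G : Type*} [TopologicalSpace G] [Group G] [IsTopologicalGroup G]
  [SecondCountableTopology G] [MeasurableSpace G] [BorelSpace G]

variable {K : Type*} [MulAction G K]

/-- Data for the criterion at one radius: `A x` is the set of centres between `1` and `x`. -/
structure CenterData (μ : Measure G) (A : G → Set K) (B : Set G) (P : ℕ) (v : ℝ≥0∞) : Prop where
  fin : ∀ x, (A x).Finite
  card : ∀ x, (A x).ncard ≤ P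
  loc : IsLocallyConstant A
  stab : ∀ c : K, IsOpen (MulAction.stabilizer G c : Set G)
  vol : ∀ x, ∀ c ∈ A x, μ (MulAction.stabilizer G c : Set G) ≤ v
  cent : ∀ y ∈ B, ∀ x, ∃ c ∈ A y, c ∈ A x ∧ y⁻¹ • c ∈ A (y⁻¹ * x)

theorem CenterData.opn {μ : Measure G} {A : G → Set K} {B : Set G} {P : ℕ} {v : ℝ≥0∞}
    (D : CenterData μ A B P v) (c : K) : IsOpen {x | c ∈ A x} :=
  D.loc {s | c ∈ s}

open scoped Classical in
/-- The set of `y` which move `c'` to `c` has the same measure as the stabiliser of `c'`, or is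
empty. -/
theorem measure_transport (μ : Measure G) [μ.IsMulLeftInvariant] (c c' : K) :
    μ {y : G | y⁻¹ • c = c'} ≤ μ (MulAction.stabilizer G c' : Set G) := by
  by_cases h : ∃ y₀ : G, y₀⁻¹ • c = c'
  · obtain ⟨y₀, h0⟩ := h
    have : {y : G | y⁻¹ • c = c'} = (fun y => y₀⁻¹ * y) ⁻¹' (MulAction.stabilizer G c' : Set G) := by
      ext y
      simp only [Set.mem_ofPred_eq, Set.mem_preimage, SetLike.mem_coe, MulAction.mem_stabilizer_iff]
      have hc : c = y₀ • c' := by rw [← h0, smul_inv_smul]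
      rw [mul_smul, hc, inv_smul_eq_iff, inv_smul_eq_iff]
      exact eq_comm
    rw [this, measure_preimage_mul]
  · have : {y : G | y⁻¹ • c = c'} = ∅ := by
      ext y
      simp only [Set.mem_ofPred_eq, Set.mem_empty_iff_false, iff_false]
      exact fun hy => h ⟨y, hy⟩
    rw [this, measure_empty]
    exact zero_le

theorem stab_open_trans (hs : ∀ c : K, IsOpen (MulAction.stabilizer G c : Set G))
    (c c' : K) : IsOpen {y : G | y⁻¹ • c = c'} := by
  by_cases h : ∃ y₀ : G, y₀⁻¹ • c = c'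
  · obtain ⟨y₀, h0⟩ := h
    have : {y : G | y⁻¹ • c = c'} = (fun y => y₀⁻¹ * y) ⁻¹' (MulAction.stabilizer G c' : Set G) := by
      ext y
      simp only [Set.mem_ofPred_eq, Set.mem_preimage, SetLike.mem_coe, MulAction.mem_stabilizer_iff]
      have hc : c = y₀ • c' := by rw [← h0, smul_inv_smul]
      rw [mul_smul, hc, inv_smul_eq_iff, inv_smul_eq_iff]
      exact eq_comm
    rw [this]
    exact (hs c').preimage (continuous_const_mul y₀⁻¹)
  · have : {y : G | y⁻¹ • c = c'} = ∅ := by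
      ext y
      simp only [Set.mem_ofPred_eq, Set.mem_empty_iff_false, iff_false]
      exact fun hy => h ⟨y, hy⟩
    rw [this]
    exact isOpen_empty

open scoped Classical in
/-- The core inequality. -/
theorem core_ineq {μ : Measure G} [SFinite μ] [μ.IsMulLeftInvariant] {A : G → Set K} {B : Set G}
    {P : ℕ} {v : ℝ≥0∞} (D : CenterData μ A B P v) {F X : G → ℝ≥0∞} (hF : Measurable F)
    (hX : Measurable X) (hFB : ∀ y, F y ≠ 0 → y ∈ B)
    {S : Finset K} (hS : ∀ y, F y ≠ 0 → ∀ c ∈ A y, c ∈ S) :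
    ∫⁻ x, (∫⁻ y, F y * X (y⁻¹ * x) ∂μ) ^ 2 ∂μ ≤
      P * (P * (P * v)) * ((∫⁻ y, F y ^ 2 ∂μ) * ∫⁻ y, X y ^ 2 ∂μ) := by
  -- indicator functions
  have hmA : ∀ c, MeasurableSet {x | c ∈ A x} := fun c => (D.opn c).measurableSet
  set a : K → ℝ≥0∞ := fun c => ∫⁻ y, ({x | c ∈ A x}.indicator F y) ^ 2 ∂μ with ha
  have hopen : ∀ c, IsOpen {p : G × G | p.1⁻¹ • c ∈ A (p.1⁻¹ * p.2)} := by
    intro c
    have : {p : G × G | p.1⁻¹ • c ∈ A (p.1⁻¹ * p.2)} =
        ⋃ c' : K, ({p : G × G | p.1⁻¹ • c = c'} ∩ {p : G × G | c' ∈ A (p.1⁻¹ * p.2)}) := by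
      ext p
      simp
    rw [this]
    refine isOpen_iUnion fun c' => IsOpen.inter ?_ ?_
    · exact (stab_open_trans D.stab c c').preimage continuous_fst
    · exact (D.opn c').preimage (by fun_prop)
  set Y : K → G → G → ℝ≥0∞ := fun c x y =>
    {p : G × G | p.1⁻¹ • c ∈ A (p.1⁻¹ * p.2)}.indicator (fun p => X (p.1⁻¹ * p.2)) (y, x) with hY
  have hYm : ∀ c, Measurable (fun p : G × G => Y c p.1 p.2) := by
    intro c
    have h1 : Measurable fun p : G × G => X (p.1⁻¹ * p.2) := hX.comp (by fun_prop)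
    have h2 := h1.indicator (hopen c).measurableSet
    exact h2.comp measurable_swap
  set b : K → G → ℝ≥0∞ := fun c x => ∫⁻ y, (Y c x y) ^ 2 ∂μ with hb
  -- pointwise estimate
  have hpt : ∀ x, (∫⁻ y, F y * X (y⁻¹ * x) ∂μ) ^ 2 ≤ P * ∑ c ∈ S, a c * b c x := by
    intro x
    have h1 : ∫⁻ y, F y * X (y⁻¹ * x) ∂μ ≤
        ∑ c ∈ S.filter (fun c => c ∈ A x), ∫⁻ y, {x | c ∈ A x}.indicator F y * Y c x y ∂μ := by
      rw [← lintegral_finsetSum]
      · refine lintegral_mono fun y => ?_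
        by_cases hy : F y = 0
        · rw [hy, zero_mul]; exact zero_le
        · obtain ⟨c, hc1, hc2, hc3⟩ := D.cent y (hFB y hy) x
          have hcS : c ∈ S.filter (fun c => c ∈ A x) := by
            rw [Finset.mem_filter]
            exact ⟨hS y hy c hc1, hc2⟩
          refine le_trans ?_ (Finset.single_le_sum
            (f := fun c => {x | c ∈ A x}.indicator F y * Y c x y) (fun _ _ => zero_le) hcS)
          simp only [hY]
          rw [Set.indicator_of_mem (show y ∈ {x | c ∈ A x} from hc1),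
            Set.indicator_of_mem (show (y, x) ∈ {p : G × G | p.1⁻¹ • c ∈ A (p.1⁻¹ * p.2)} from hc3)]
      · intro c _
        refine (hF.indicator (hmA c)).mul ?_
        exact (hYm c).comp (measurable_prodMk_left)
    refine (pow_le_pow_left' h1 2).trans ((cs_sum _ _).trans ?_)
    refine mul_le_mul' ?_ ?_
    · have h2 : (S.filter (fun c => c ∈ A x)).card ≤ P := by
        refine le_trans ?_ (D.card x)
        rw [← Set.ncard_coe_finset]
        exact Set.ncard_le_ncard (fun c hc => (Finset.mem_filter.1 hc).2) (D.fin x)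
      exact_mod_cast h2
    · refine (Finset.sum_le_sum fun c _ => cs_lintegral μ ((hF.indicator (hmA c)).aemeasurable)
        (((hYm c).comp (measurable_prodMk_left)).aemeasurable)).trans ?_
      exact Finset.sum_le_sum_of_subset (Finset.filter_subset _ _)
  -- integral of b
  have hbint : ∀ c, ∫⁻ x, b c x ∂μ ≤ P * v * ∫⁻ y, X y ^ 2 ∂μ := by
    intro c
    have hsq : Measurable (fun p : G × G => (Y c p.1 p.2) ^ 2) := (hYm c).pow_const 2
    calc ∫⁻ x, b c x ∂μ = ∫⁻ x, ∫⁻ y, (Y c x y) ^ 2 ∂μ ∂μ := rfl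
      _ = ∫⁻ y, ∫⁻ x, (Y c x y) ^ 2 ∂μ ∂μ := by
          rw [lintegral_lintegral_swap]
          exact hsq.aemeasurable
      _ = ∫⁻ y, ∫⁻ z, (Y c (y * z) y) ^ 2 ∂μ ∂μ := by
          refine lintegral_congr fun y => ?_
          rw [← lintegral_mul_left_eq_self (fun x => (Y c x y) ^ 2) y]
      _ = ∫⁻ z, ∫⁻ y, (Y c (y * z) y) ^ 2 ∂μ ∂μ := by
          rw [lintegral_lintegral_swap]
          have : Measurable (fun p : G × G => (Y c (p.1 * p.2) p.1) ^ 2) := by
            have h3 : Measurable fun p : G × G => (p.1 * p.2, p.1) := by fun_prop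
            exact hsq.comp h3
          exact this.aemeasurable
      _ ≤ ∫⁻ z, (P * v) * X z ^ 2 ∂μ := by
          refine lintegral_mono fun z => ?_
          have h4 : ∀ y, (Y c (y * z) y) ^ 2 =
              {y : G | y⁻¹ • c ∈ A z}.indicator (fun _ => X z ^ 2) y := by
            intro y
            simp only [hY]
            by_cases hy : y⁻¹ • c ∈ A z
            · rw [Set.indicator_of_mem (show y ∈ {y : G | y⁻¹ • c ∈ A z} from hy),
                Set.indicator_of_mem]
              · simp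
              · simpa using hy
            · rw [Set.indicator_of_notMem (show y ∉ {y : G | y⁻¹ • c ∈ A z} from hy),
                Set.indicator_of_notMem]
              · simp
              · simpa using hy
          have h5 : {y : G | y⁻¹ • c ∈ A z} = ⋃ c' ∈ A z, {y : G | y⁻¹ • c = c'} := by
            ext y; simp
          have hmeas : MeasurableSet {y : G | y⁻¹ • c ∈ A z} := by
            rw [h5]
            exact (isOpen_biUnion fun c' _ =>
              stab_open_trans D.stab c c').measurableSet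
          simp only [h4]
          rw [lintegral_indicator hmeas, lintegral_const, Measure.restrict_apply_univ, mul_comm]
          refine mul_le_mul' ?_ le_rfl
          have h6 : {y : G | y⁻¹ • c ∈ A z} ⊆ ⋃ c' ∈ (D.fin z).toFinset, {y : G | y⁻¹ • c = c'} := by
            rw [h5]; simp
          refine (measure_mono h6).trans ((measure_biUnion_finset_le _ _).trans ?_)
          calc ∑ c' ∈ (D.fin z).toFinset, μ {y : G | y⁻¹ • c = c'}
              ≤ ∑ _c' ∈ (D.fin z).toFinset, v := by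
                refine Finset.sum_le_sum fun c' hc' => ?_
                exact (measure_transport μ c c').trans
                  (D.vol z c' ((D.fin z).mem_toFinset.1 hc'))
            _ = ((D.fin z).toFinset.card : ℝ≥0∞) * v := by
                rw [Finset.sum_const, nsmul_eq_mul]
            _ ≤ P * v := by
                refine mul_le_mul' ?_ le_rfl
                have := D.card z
                rw [Set.ncard_eq_toFinset_card _ (D.fin z)] at this
                exact_mod_cast this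
      _ = P * v * ∫⁻ y, X y ^ 2 ∂μ := by
          rw [lintegral_const_mul _ (hX.pow_const 2)]
  -- sum of a
  have hasum : ∑ c ∈ S, a c ≤ P * ∫⁻ y, F y ^ 2 ∂μ := by
    simp only [ha]
    rw [← lintegral_finsetSum]
    · rw [← lintegral_const_mul _ (hF.pow_const 2)]
      refine lintegral_mono fun y => ?_
      calc ∑ c ∈ S, ({x | c ∈ A x}.indicator F y) ^ 2
          = ∑ c ∈ S.filter (fun c => c ∈ A y), F y ^ 2 := by
            rw [Finset.sum_filter]
            refine Finset.sum_congr rfl fun c _ => ?_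
            by_cases hc : c ∈ A y
            · rw [if_pos hc, Set.indicator_of_mem (show y ∈ {x | c ∈ A x} from hc)]
            · rw [if_neg hc, Set.indicator_of_notMem (show y ∉ {x | c ∈ A x} from hc)]
              simp
        _ = ((S.filter (fun c => c ∈ A y)).card : ℝ≥0∞) * F y ^ 2 := by
            rw [Finset.sum_const, nsmul_eq_mul]
        _ ≤ P * F y ^ 2 := by
            refine mul_le_mul' ?_ le_rfl
            have h2 : (S.filter (fun c => c ∈ A y)).card ≤ P := by
              refine le_trans ?_ (D.card y)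
              rw [← Set.ncard_coe_finset]
              exact Set.ncard_le_ncard (fun c hc => (Finset.mem_filter.1 hc).2) (D.fin y)
            exact_mod_cast h2
    · intro c _
      exact (hF.indicator (hmA c)).pow_const 2
  have hbm : ∀ c, Measurable (b c) := by
    intro c
    simp only [hb]
    exact Measurable.lintegral_prod_right' (f := fun p : G × G => (Y c p.1 p.2) ^ 2)
      ((hYm c).pow_const 2)
  calc ∫⁻ x, (∫⁻ y, F y * X (y⁻¹ * x) ∂μ) ^ 2 ∂μ
      ≤ ∫⁻ x, P * ∑ c ∈ S, a c * b c x ∂μ := lintegral_mono hpt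
    _ = P * ∑ c ∈ S, a c * ∫⁻ x, b c x ∂μ := by
        rw [lintegral_const_mul, lintegral_finsetSum]
        · congr 1
          refine Finset.sum_congr rfl fun c _ => ?_
          rw [lintegral_const_mul _ (hbm c)]
        · intro c _
          exact (hbm c).const_mul _
        · exact Finset.measurable_fun_sum _ fun c _ => (hbm c).const_mul _
    _ ≤ P * ∑ c ∈ S, a c * (P * v * ∫⁻ y, X y ^ 2 ∂μ) := by
        gcongr with c _
        exact hbint c
    _ = P * ((∑ c ∈ S, a c) * (P * v * ∫⁻ y, X y ^ 2 ∂μ)) := by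
        rw [Finset.sum_mul]
    _ ≤ P * ((P * ∫⁻ y, F y ^ 2 ∂μ) * (P * v * ∫⁻ y, X y ^ 2 ∂μ)) := by
        gcongr
    _ = P * (P * (P * v)) * ((∫⁻ y, F y ^ 2 ∂μ) * ∫⁻ y, X y ^ 2 ∂μ) := by ring


theorem eLpNorm_two_sq {α E : Type*} [MeasurableSpace α] [NormedAddCommGroup E] (μ : Measure α)
    (f : α → E) : eLpNorm f 2 μ ^ 2 = ∫⁻ x, ‖f x‖ₑ ^ 2 ∂μ := by
  rw [eLpNorm_eq_lintegral_rpow_enorm_toReal (by norm_num) (by norm_num)]
  simp only [ENNReal.toReal_ofNat]
  rw [ennreal_sqrt_sq]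
  simp only [ennreal_rpow_two]

theorem tsum_inv_sq_ne_top : (∑' n : ℕ, ((n : ℝ≥0∞) + 1)⁻¹ ^ 2) ≠ ∞ := by
  have h1 : Summable fun n : ℕ => (1 : ℝ) / ((n : ℝ) + 1) ^ 2 := by
    have := (summable_nat_add_iff 1).2 (Real.summable_one_div_nat_pow.2 (one_lt_two))
    simpa using this
  have h2 : ∀ n : ℕ, ((n : ℝ≥0∞) + 1)⁻¹ ^ 2 = ENNReal.ofReal ((1 : ℝ) / ((n : ℝ) + 1) ^ 2) := by
    intro n
    have h3 : ((n : ℝ≥0∞) + 1) = ENNReal.ofReal ((n : ℝ) + 1) := by
      rw [ENNReal.ofReal_add (by positivity) (by norm_num)]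
      simp
    rw [h3, ← ENNReal.ofReal_inv_of_pos (by positivity), ← ENNReal.ofReal_pow (by positivity)]
    congr 1
    field_simp
  simp only [h2]
  exact h1.tsum_ofReal_ne_top

/-- Rapid decay from polynomially bounded centre data. -/
theorem rd_of_centers [LocallyCompactSpace G] {μ : Measure G} [μ.IsHaarMeasure]
    (L : G → ℝ) (hLc : Continuous L) (hL0 : ∀ g, 0 ≤ L g)
    (A : ℕ → G → Set K) (Cc d : ℕ) (v : ℝ≥0∞) (hv : v ≠ ∞)
    (D : ∀ r : ℕ, CenterData μ (A r) {y | L y ≤ r} (Cc * (r + 1) ^ d) v) :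
    ∃ C s : ℝ, 0 ≤ C ∧ 0 ≤ s ∧
      ∀ f ξ : G → ℂ, Continuous f → HasCompactSupport f → Continuous ξ →
        HasCompactSupport ξ →
        eLpNorm (fun x => ∫ y, f y * ξ (y⁻¹ * x) ∂μ) 2 μ ≤
          ENNReal.ofReal C * eLpNorm (fun g => f g * (((1 + L g) ^ s : ℝ) : ℂ)) 2 μ *
            eLpNorm ξ 2 μ := by
  set Z : ℝ≥0∞ := ∑' n : ℕ, ((n : ℝ≥0∞) + 1)⁻¹ ^ 2 with hZ
  have hZt : Z ≠ ∞ := tsum_inv_sq_ne_top
  set Cst : ℝ≥0∞ := (Cc : ℝ≥0∞) ^ 3 * 2 ^ (3 * d) * v with hCst
  have hCt : Cst ≠ ∞ := by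
    rw [hCst]
    exact ENNReal.mul_ne_top (ENNReal.mul_ne_top (by simp) (by simp)) hv
  have hZC : Z * Cst ≠ ∞ := ENNReal.mul_ne_top hZt hCt
  refine ⟨((Z * Cst) ^ (1 / (2 : ℝ))).toReal, ((2 + 3 * d : ℕ) : ℝ), ENNReal.toReal_nonneg,
    by positivity, ?_⟩
  intro f ξ hf hfc hξ hξc
  have hone : ∀ y, 1 ≤ 1 + L y := fun y => by linarith [hL0 y]
  -- basic functions
  set F : G → ℝ≥0∞ := fun y => ‖f y‖ₑ with hFdef
  set X : G → ℝ≥0∞ := fun y => ‖ξ y‖ₑ with hXdef
  have hFm : Measurable F := hf.measurable.enorm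
  have hXm : Measurable X := hξ.measurable.enorm
  set sh : ℕ → Set G := fun n => {y | (n : ℝ) ≤ L y ∧ L y < n + 1} with hsh
  have hshm : ∀ n, MeasurableSet (sh n) := fun n =>
    (measurableSet_le measurable_const hLc.measurable).inter
      (measurableSet_lt hLc.measurable measurable_const)
  set Fn : ℕ → G → ℝ≥0∞ := fun n => (sh n).indicator F with hFn
  have hFnm : ∀ n, Measurable (Fn n) := fun n => hFm.indicator (hshm n)
  have hmem : ∀ y, y ∈ sh ⌊L y⌋₊ := fun y => ⟨Nat.floor_le (hL0 y), Nat.lt_floor_add_one _⟩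
  have huniq : ∀ y n, y ∈ sh n → n = ⌊L y⌋₊ := by
    intro y n hn
    symm
    rw [Nat.floor_eq_iff (hL0 y)]
    exact hn
  have hdec : ∀ (H : G → ℝ≥0∞) y, H y = ∑' n, (sh n).indicator H y := by
    intro H y
    rw [tsum_eq_single ⌊L y⌋₊, Set.indicator_of_mem (hmem y)]
    intro n hn
    exact Set.indicator_of_notMem (fun h => hn (huniq y n h)) _
  -- the inequality on each shell
  have hshell : ∀ n : ℕ, ∫⁻ x, (∫⁻ y, Fn n y * X (y⁻¹ * x) ∂μ) ^ 2 ∂μ ≤
      ((Cc * (n + 1 + 1) ^ d : ℕ) : ℝ≥0∞) * (((Cc * (n + 1 + 1) ^ d : ℕ) : ℝ≥0∞) *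
        (((Cc * (n + 1 + 1) ^ d : ℕ) : ℝ≥0∞) * v)) *
        ((∫⁻ y, Fn n y ^ 2 ∂μ) * ∫⁻ y, X y ^ 2 ∂μ) := by
    intro n
    have hfin : (A (n + 1) '' (tsupport f)).Finite := by
      let _ : TopologicalSpace (Set K) := ⊥
      have : DiscreteTopology (Set K) := ⟨rfl⟩
      exact (hfc.isCompact.image ((D (n + 1)).loc.continuous)).finite_of_discrete
    have hfin2 : (⋃ s ∈ A (n + 1) '' (tsupport f), s).Finite := by
      refine hfin.biUnion ?_
      rintro _ ⟨y, _, rfl⟩
      exact (D (n + 1)).fin y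
    refine core_ineq (D (n + 1)) (hFnm n) hXm ?_ (S := hfin2.toFinset) ?_
    · intro y hy
      have h1 : y ∈ sh n := by
        by_contra h
        exact hy (Set.indicator_of_notMem h _)
      have h2 : L y ≤ ((n + 1 : ℕ) : ℝ) := by
        have := h1.2
        push_cast
        linarith
      exact h2
    · intro y hy c hc
      have h1 : y ∈ tsupport f := by
        apply subset_tsupport
        intro h0
        apply hy
        by_cases h : y ∈ sh n
        · simp only [hFn, hFdef]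
          rw [Set.indicator_of_mem h]
          simp [h0]
        · exact Set.indicator_of_notMem h _
      rw [Set.Finite.mem_toFinset]
      simp only [Set.mem_iUnion]
      exact ⟨_, ⟨y, h1, rfl⟩, hc⟩
  -- pointwise decomposition
  set g : ℕ → G → ℝ≥0∞ := fun n x => ∫⁻ y, Fn n y * X (y⁻¹ * x) ∂μ with hg
  have hgm : ∀ n, Measurable (g n) := by
    intro n
    have h1 : Measurable fun p : G × G => Fn n p.2 * X (p.2⁻¹ * p.1) := by
      have h2 : Measurable fun p : G × G => X (p.2⁻¹ * p.1) := hXm.comp (by fun_prop)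
      exact ((hFnm n).comp measurable_snd).mul h2
    exact Measurable.lintegral_prod_right' (f := fun p : G × G => Fn n p.2 * X (p.2⁻¹ * p.1)) h1
  have hpt : ∀ x, ‖∫ y, f y * ξ (y⁻¹ * x) ∂μ‖ₑ ^ 2 ≤
      Z * ∑' n : ℕ, (((n : ℝ≥0∞) + 1) * g n x) ^ 2 := by
    intro x
    have h1 : ‖∫ y, f y * ξ (y⁻¹ * x) ∂μ‖ₑ ≤ ∑' n, g n x := by
      refine (enorm_integral_le_lintegral_enorm _).trans (le_of_eq ?_)
      rw [hg, ← lintegral_tsum]
      · refine lintegral_congr fun y => ?_
        rw [enorm_mul, ENNReal.tsum_mul_right]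
        congr 1
        exact hdec F y
      · intro n
        have h2 : Measurable fun y : G => X (y⁻¹ * x) := hXm.comp (by fun_prop)
        exact ((hFnm n).mul h2).aemeasurable
    have h3 : ∑' n, g n x = ∑' n : ℕ, ((n : ℝ≥0∞) + 1)⁻¹ * ((((n : ℝ≥0∞) + 1)) * g n x) := by
      refine tsum_congr fun n => ?_
      rw [← mul_assoc, ENNReal.inv_mul_cancel (by simp) (by simp), one_mul]
    refine (pow_le_pow_left' h1 2).trans ?_
    rw [h3]
    exact cs_tsum _ _
  -- integrate
  have hmain : ∫⁻ x, ‖∫ y, f y * ξ (y⁻¹ * x) ∂μ‖ₑ ^ 2 ∂μ ≤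
      Z * Cst * ((∫⁻ y, ‖f y * (((1 + L y) ^ ((2 + 3 * d : ℕ) : ℝ) : ℝ) : ℂ)‖ₑ ^ 2 ∂μ) *
        ∫⁻ y, X y ^ 2 ∂μ) := by
    calc ∫⁻ x, ‖∫ y, f y * ξ (y⁻¹ * x) ∂μ‖ₑ ^ 2 ∂μ
        ≤ ∫⁻ x, Z * ∑' n : ℕ, (((n : ℝ≥0∞) + 1) * g n x) ^ 2 ∂μ := lintegral_mono hpt
      _ = Z * ∑' n : ℕ, ((n : ℝ≥0∞) + 1) ^ 2 * ∫⁻ x, g n x ^ 2 ∂μ := by
          rw [lintegral_const_mul, lintegral_tsum]
          · congr 1
            refine tsum_congr fun n => ?_
            rw [← lintegral_const_mul _ ((hgm n).pow_const 2)]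
            refine lintegral_congr fun x => ?_
            rw [mul_pow]
          · intro n
            exact (((hgm n).const_mul _).pow_const 2).aemeasurable
          · exact Measurable.tsum fun n => ((hgm n).const_mul _).pow_const 2
      _ ≤ Z * ∑' n : ℕ, Cst * ((∫⁻ y, (sh n).indicator (fun y =>
            ‖f y * (((1 + L y) ^ ((2 + 3 * d : ℕ) : ℝ) : ℝ) : ℂ)‖ₑ ^ 2) y ∂μ) *
            ∫⁻ y, X y ^ 2 ∂μ) := by
          refine mul_le_mul' le_rfl (ENNReal.tsum_le_tsum fun n => ?_)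
          calc ((n : ℝ≥0∞) + 1) ^ 2 * ∫⁻ x, g n x ^ 2 ∂μ
              ≤ ((n : ℝ≥0∞) + 1) ^ 2 * (((Cc * (n + 1 + 1) ^ d : ℕ) : ℝ≥0∞) *
                (((Cc * (n + 1 + 1) ^ d : ℕ) : ℝ≥0∞) *
                (((Cc * (n + 1 + 1) ^ d : ℕ) : ℝ≥0∞) * v)) *
                ((∫⁻ y, Fn n y ^ 2 ∂μ) * ∫⁻ y, X y ^ 2 ∂μ)) := by
                gcongr
                exact hshell n
            _ = (∫⁻ y, (((n : ℝ≥0∞) + 1) ^ 2 * (((Cc * (n + 1 + 1) ^ d : ℕ) : ℝ≥0∞) *
                (((Cc * (n + 1 + 1) ^ d : ℕ) : ℝ≥0∞) *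
                (((Cc * (n + 1 + 1) ^ d : ℕ) : ℝ≥0∞) * v)))) * Fn n y ^ 2 ∂μ) *
                ∫⁻ y, X y ^ 2 ∂μ := by
                rw [lintegral_const_mul _ ((hFnm n).pow_const 2)]
                ring
            _ ≤ (∫⁻ y, Cst * (sh n).indicator (fun y =>
                ‖f y * (((1 + L y) ^ ((2 + 3 * d : ℕ) : ℝ) : ℝ) : ℂ)‖ₑ ^ 2) y ∂μ) *
                ∫⁻ y, X y ^ 2 ∂μ := by
                refine mul_le_mul' (lintegral_mono fun y => ?_) le_rfl
                by_cases hy : y ∈ sh n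
                · simp only [hFn]
                  rw [Set.indicator_of_mem hy, Set.indicator_of_mem hy]
                  have hpos : (0 : ℝ) ≤ 1 + L y := by linarith [hL0 y]
                  have e1 : ‖f y * (((1 + L y) ^ ((2 + 3 * d : ℕ) : ℝ) : ℝ) : ℂ)‖ₑ =
                      F y * ENNReal.ofReal (1 + L y) ^ (2 + 3 * d) := by
                    rw [enorm_mul, Real.rpow_natCast, ← ENNReal.ofReal_pow hpos]
                    congr 1
                    rw [← ofReal_norm, Complex.norm_real, Real.norm_of_nonneg (by positivity)]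
                  rw [e1]
                  have h2 : ((n : ℝ≥0∞) + 1) ≤ ENNReal.ofReal (1 + L y) := by
                    have : ((n : ℝ≥0∞) + 1) = ENNReal.ofReal ((n : ℝ) + 1) := by
                      rw [ENNReal.ofReal_add (by positivity) (by norm_num)]
                      simp
                    rw [this]
                    apply ENNReal.ofReal_le_ofReal
                    have := hy.1
                    linarith
                  have h2' : (1 : ℝ≥0∞) ≤ ENNReal.ofReal (1 + L y) := by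
                    refine le_trans ?_ h2
                    simp
                  have h3 : ((Cc * (n + 1 + 1) ^ d : ℕ) : ℝ≥0∞) ≤
                      Cc * (2 * ENNReal.ofReal (1 + L y)) ^ d := by
                    push_cast
                    gcongr
                    calc (n : ℝ≥0∞) + 1 + 1 ≤ ENNReal.ofReal (1 + L y) + ENNReal.ofReal (1 + L y) :=
                        add_le_add h2 h2'
                      _ = 2 * ENNReal.ofReal (1 + L y) := by ring
                  set T := ENNReal.ofReal (1 + L y) with hT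
                  calc ((n : ℝ≥0∞) + 1) ^ 2 * (((Cc * (n + 1 + 1) ^ d : ℕ) : ℝ≥0∞) *
                        (((Cc * (n + 1 + 1) ^ d : ℕ) : ℝ≥0∞) *
                        (((Cc * (n + 1 + 1) ^ d : ℕ) : ℝ≥0∞) * v))) * F y ^ 2
                      ≤ T ^ 2 * ((Cc * (2 * T) ^ d) * ((Cc * (2 * T) ^ d) *
                        ((Cc * (2 * T) ^ d) * v))) * F y ^ 2 := by gcongr
                    _ = Cst * (F y ^ 2 * T ^ (2 + 3 * d)) := by
                        have e8 : (2 : ℝ≥0∞) ^ (3 * d) = (2 ^ d) ^ 3 := by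
                          rw [← pow_mul]; congr 1; ring
                        have e9 : T ^ (2 + 3 * d) = T ^ 2 * (T ^ d) ^ 3 := by
                          rw [pow_add, ← pow_mul]; congr 2; ring
                        rw [hCst, mul_pow, e8, e9]
                        ring
                    _ ≤ Cst * (F y * T ^ (2 + 3 * d)) ^ 2 := by
                        rw [mul_pow]
                        refine mul_le_mul' le_rfl (mul_le_mul' le_rfl ?_)
                        rw [← pow_mul]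
                        exact pow_le_pow_right₀ h2' (by omega)
                · simp only [hFn]
                  rw [Set.indicator_of_notMem hy]
                  simp
            _ = Cst * ((∫⁻ y, (sh n).indicator (fun y =>
                ‖f y * (((1 + L y) ^ ((2 + 3 * d : ℕ) : ℝ) : ℝ) : ℂ)‖ₑ ^ 2) y ∂μ) *
                ∫⁻ y, X y ^ 2 ∂μ) := by
                rw [lintegral_const_mul' _ _ hCt]
                ring
      _ = Z * Cst * ((∫⁻ y, ‖f y * (((1 + L y) ^ ((2 + 3 * d : ℕ) : ℝ) : ℝ) : ℂ)‖ₑ ^ 2 ∂μ) *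
            ∫⁻ y, X y ^ 2 ∂μ) := by
          rw [ENNReal.tsum_mul_left, ENNReal.tsum_mul_right, ← lintegral_tsum]
          · have e3 : ∫⁻ y, ∑' n, (sh n).indicator (fun y =>
                ‖f y * (((1 + L y) ^ ((2 + 3 * d : ℕ) : ℝ) : ℝ) : ℂ)‖ₑ ^ 2) y ∂μ =
                ∫⁻ y, ‖f y * (((1 + L y) ^ ((2 + 3 * d : ℕ) : ℝ) : ℝ) : ℂ)‖ₑ ^ 2 ∂μ :=
              lintegral_congr fun y => (hdec _ y).symm
            rw [e3, ← mul_assoc Z Cst]
          · intro n
            have hm : Measurable fun y => ‖f y * (((1 + L y) ^ ((2 + 3 * d : ℕ) : ℝ) : ℝ) : ℂ)‖ₑ := by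
              refine Measurable.enorm ?_
              refine hf.measurable.mul ?_
              refine Complex.measurable_ofReal.comp ?_
              exact (measurable_const.add hLc.measurable).pow_const _
            exact ((hm.pow_const 2).indicator (hshm n)).aemeasurable
  -- conclusion
  have hsq : eLpNorm (fun x => ∫ y, f y * ξ (y⁻¹ * x) ∂μ) 2 μ ^ 2 ≤
      (ENNReal.ofReal ((Z * Cst) ^ (1 / (2 : ℝ))).toReal *
        eLpNorm (fun g => f g * (((1 + L g) ^ ((2 + 3 * d : ℕ) : ℝ) : ℝ) : ℂ)) 2 μ *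
          eLpNorm ξ 2 μ) ^ 2 := by
    rw [mul_pow, mul_pow, eLpNorm_two_sq, eLpNorm_two_sq, eLpNorm_two_sq, ENNReal.ofReal_toReal,
      ennreal_sqrt_sq, mul_assoc (Z * Cst)]
    · exact hmain
    · exact ENNReal.rpow_ne_top_of_nonneg (by norm_num) hZC
  exact (ENNReal.pow_le_pow_left_iff (by norm_num)).1 hsq

end Pool.Agent.LibRD
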