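import Pool.Agent.LibRD54.Tree
import Pool.Agent.LibRD.Blocks

/-! Consequences of the block combinatorics in the language of `LibRD54`. -/

set_option autoImplicit false

namespace Pool.Agent.LibRD

open Pool.Agent.RD54

variable {F : Type*} [Group F] {site : ℕ → ℕ → F}

theorem blk_Lam (hs : SiteOK site) {x y o : W1 F} {g : F} {e : List (ZMod 2)}
    (h : Bl site x y o g e) : blk (Lam site) x y = bset site o g e := blk_eq hs h

theorem diamondFree_Lam (hs : SiteOK site) : DiamondFree (Lam site) := by
  intro s t u v hst hus hut hvs hvt huv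
  obtain ⟨o, g, e, b⟩ := (Lam_adj_iff hs).1 hst
  have hu : u ∈ bset site o g e := by
    rw [← blk_Lam hs b]; exact ⟨Or.inr hus, Or.inr hut⟩
  have hv : v ∈ bset site o g e := by
    rw [← blk_Lam hs b]; exact ⟨Or.inr hvs, Or.inr hvt⟩
  exact bset_clique hu hv huv

theorem cliqueBound_Lam (hs : SiteOK site) (r : ℕ) :
    CliqueBound (Lam site) {x | len x ≤ r} (r + 1) := by
  intro C h1 h2
  exact clique_card hs C r h1 h2

end Pool.Agent.LibRD
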