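import Pool.Agent.LibRD.Sites
import Pool.Agent.LibRD93.Defs

/-! Digits of a block: the stabiliser of a block of size `N` has index at least `2 ^ N` in `MM`. -/

set_option autoImplicit false

namespace Pool.Agent.RD93

open Pool.Agent.RD54

theorem site_eq : site = LibRD.site := rfl

theorem siteOK : LibRD.SiteOK site := by
  rw [site_eq]; exact LibRD.siteOK

/-! ### Digits of explicit elements -/

theorem actF_tt (x : MM) : actF tt x =
    Multiplicative.ofAdd ((fun n => (Multiplicative.toAdd x).1 (n - 1)), (Multiplicative.toAdd x).2) := by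
  unfold tt
  rw [map_mul, actF_gen, actF_gen, MulAut.mul_apply]
  apply congrArg Multiplicative.ofAdd
  refine Prod.ext ?_ rfl
  funext n
  change (Multiplicative.toAdd x).1 (0 - (1 - n)) = (Multiplicative.toAdd x).1 (n - 1)
  ring_nf

theorem actF_tt_pow (k : ℕ) (x : MM) : actF (tt ^ k) x =
    Multiplicative.ofAdd ((fun n => (Multiplicative.toAdd x).1 (n - k)), (Multiplicative.toAdd x).2) := by
  induction k generalizing x with
  | zero => simp
  | succ k ih =>
    rw [pow_succ, map_mul, MulAut.mul_apply, actF_tt, ih]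
    apply congrArg Multiplicative.ofAdd
    refine Prod.ext ?_ rfl
    funext n
    change (Multiplicative.toAdd x).1 (n - k - 1) = (Multiplicative.toAdd x).1 (n - (k + 1 : ℕ))
    push_cast
    ring_nf

theorem actF_tt_pow_inv (k : ℕ) (x : MM) : actF (tt ^ k)⁻¹ x =
    Multiplicative.ofAdd ((fun n => (Multiplicative.toAdd x).1 (n + k)), (Multiplicative.toAdd x).2) := by
  rw [map_inv, MulAut.inv_apply, MulEquiv.symm_apply_eq, actF_tt_pow]
  apply congrArg Multiplicative.ofAdd
  refine Prod.ext ?_ rfl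
  funext n
  change (Multiplicative.toAdd x).1 n = (Multiplicative.toAdd x).1 (n - k + k)
  ring_nf

theorem actF_shear (x : MM) : actF (gen _ 2) x =
    Multiplicative.ofAdd ((Multiplicative.toAdd x).1 + (Multiplicative.toAdd x).2,
      (Multiplicative.toAdd x).2) := by
  rw [actF_gen]; rfl

theorem dig_dsite_zero (x : MM) : dig (dsite 0) x = (Multiplicative.toAdd x).1 0 := by
  unfold dig dsite
  simp

theorem dig_dsite_succ (k : ℕ) (x : MM) : dig (dsite (k + 1)) x =
    (Multiplicative.toAdd x).1 0 + (Multiplicative.toAdd x).2 (-((k + 1 : ℕ) : ℤ)) := by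
  unfold dig dsite
  rw [if_neg (Nat.succ_ne_zero k)]
  have e : (tt ^ (k + 1) * gen _ 2 * (tt ^ (k + 1))⁻¹)⁻¹ =
      tt ^ (k + 1) * gen _ 2 * (tt ^ (k + 1))⁻¹ := by
    rw [mul_inv_rev, mul_inv_rev, inv_inv, gen_inv, mul_assoc]
  rw [e, map_mul, map_mul, MulAut.mul_apply, MulAut.mul_apply, actF_tt_pow_inv, actF_shear,
    actF_tt_pow]
  simp

theorem exists_digits (g : FF) (N : ℕ) (v : Fin N → ZMod 2) :
    ∃ m : MM, ∀ k : Fin N, dig (g * dsite k) m = v k := by
  classical
  rcases Nat.eq_zero_or_pos N with h0 | h0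
  · subst h0
    exact ⟨1, fun k => k.elim0⟩
  let x : MM := Multiplicative.ofAdd
    ((fun _ => v ⟨0, h0⟩), (fun n => if h : ((-n).toNat < N) then v ⟨(-n).toNat, h⟩ - v ⟨0, h0⟩
      else 0))
  refine ⟨actF g x, fun k => ?_⟩
  rw [dig_act]
  obtain ⟨k, hk⟩ := k
  cases k with
  | zero => exact dig_dsite_zero x
  | succ k =>
    change dig (dsite (k + 1)) x = _
    rw [dig_dsite_succ]
    have hx2 : (Multiplicative.toAdd x).2 (-((k + 1 : ℕ) : ℤ)) =
        v ⟨k + 1, hk⟩ - v ⟨0, h0⟩ := by
      change (if h : ((-(-((k + 1 : ℕ) : ℤ))).toNat < N) then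
        v ⟨(-(-((k + 1 : ℕ) : ℤ))).toNat, h⟩ - v ⟨0, h0⟩ else 0) = _
      have h1 : (-(-((k + 1 : ℕ) : ℤ))).toNat = k + 1 := by simp
      simp only [h1]
      rw [dif_pos hk]
    rw [hx2]
    change v ⟨0, h0⟩ + (v ⟨k + 1, hk⟩ - v ⟨0, h0⟩) = v ⟨k + 1, hk⟩
    ring

/-- The digits of an element as a homomorphism. -/
noncomputable def chi (g : FF) (N : ℕ) : MM →* Multiplicative (Fin N → ZMod 2) where
  toFun m := Multiplicative.ofAdd (fun k => dig (g * dsite k) m)
  map_one' := by
    apply congrArg Multiplicative.ofAdd (a₁ := fun k : Fin N => dig (g * dsite k) 1) (a₂ := 0)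
    funext k
    simp
  map_mul' m m' := by
    apply congrArg Multiplicative.ofAdd (a₁ := fun k : Fin N => dig (g * dsite k) (m * m'))
      (a₂ := (fun k : Fin N => dig (g * dsite k) m) + (fun k : Fin N => dig (g * dsite k) m'))
    funext k
    simp [dig_mul]

theorem chi_surjective (g : FF) (N : ℕ) : Function.Surjective (chi g N) := by
  intro v
  obtain ⟨m, hm⟩ := exists_digits g N (Multiplicative.toAdd v)
  exact ⟨m, congrArg Multiplicative.ofAdd (funext hm)⟩

theorem chi_eq_one {g : FF} {N : ℕ} {m : MM} (h : ∀ k : ℕ, k < N → dig (g * dsite k) m = 0) :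
    chi g N m = 1 := by
  apply congrArg Multiplicative.ofAdd (a₁ := fun k : Fin N => dig (g * dsite k) m) (a₂ := 0)
  funext k
  exact h k k.2

theorem digits_of_image_eq {h : G1} (hr : h.right.right = 1) {o : W1} {g : FF}
    {e : List (ZMod 2)} (he : 2 ≤ e.length)
    (himg : (fun v => h • v) '' LibRD.bset site o g e = LibRD.bset site o g e) (k : ℕ)
    (hk : k < e.length) : dig (g * dsite k) h.right.left = 0 := by
  rw [smul_bset, hr, one_mul] at himg
  have hne : LibRD.bpt site o g e 0 ≠ LibRD.bpt site o g e 1 := by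
    intro hh
    have := LibRD.bpt_inj siteOK (List.ne_nil_of_length_pos (by omega)) hh
    omega
  have h0 : LibRD.bpt site o g e 0 ∈ LibRD.bset site o g e := ⟨0, by omega, rfl⟩
  have h1 : LibRD.bpt site o g e 1 ∈ LibRD.bset site o g e := ⟨1, by omega, rfl⟩
  have b1 := LibRD.bl_of_mem h0 h1 hne
  have b2 := LibRD.bl_of_mem (himg ▸ h0) (himg ▸ h1) hne
  have hu := LibRD.Bl.unique siteOK b1 b2
  have he2 : e = dact h.right.left g e := hu.2.2
  have h3 : (dact h.right.left g e)[k]'(by simpa using hk) = e[k] + dig (g * dsite k) h.right.left :=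
    getElem_dact _ _ _ _ _
  have h4 : (dact h.right.left g e)[k]'(by simpa using hk) = e[k] := by
    have : e[k]? = (dact h.right.left g e)[k]? := congrArg (fun l : List (ZMod 2) => l[k]?) he2
    rw [List.getElem?_eq_getElem hk, List.getElem?_eq_getElem (by simpa using hk)] at this
    exact (Option.some.inj this).symm
  rw [h4] at h3
  exact (left_eq_add.mp h3)

theorem hblk (s t : W1) (hst : Lam.Adj s t) (p : W1) :
    ∃ (E : Type) (_ : Fintype E) (_ : Group E) (χ : MM →* E), Function.Surjective χ ∧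
      2 ^ (blk Lam s t).ncard ≤ Fintype.card E ∧
      ∀ m : MM, (fun v => (⟨p * (phi1 (SemidirectProduct.inl m) p)⁻¹,
        SemidirectProduct.inl m⟩ : G1) • v) '' blk Lam s t = blk Lam s t → χ m = 1 := by
  classical
  obtain ⟨o, g, e, b⟩ := (LibRD.Lam_adj_iff siteOK).1 hst
  rw [LibRD.blk_Lam siteOK b]
  refine ⟨Multiplicative (Fin e.length → ZMod 2), inferInstance, inferInstance, chi g e.length,
    chi_surjective g _, ?_, ?_⟩
  · rw [LibRD.ncard_bset siteOK]
    simp
  · intro m hm
    apply chi_eq_one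
    intro k hk
    exact digits_of_image_eq (h := (⟨p * (phi1 (SemidirectProduct.inl m) p)⁻¹,
        SemidirectProduct.inl m⟩ : G1)) rfl b.two_le hm k hk

theorem blk_finite (s t : W1) (hst : Lam.Adj s t) : (blk Lam s t).Finite := by
  obtain ⟨o, g, e, b⟩ := (LibRD.Lam_adj_iff siteOK).1 hst
  rw [LibRD.blk_Lam siteOK b]
  exact LibRD.bset_finite o g e

theorem diamondFree_Lam : DiamondFree Lam := LibRD.diamondFree_Lam siteOK

theorem cliqueBound_Lam (r : ℕ) : CliqueBound Lam {x | len x ≤ r} (r + 1) :=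
  LibRD.cliqueBound_Lam siteOK r

end Pool.Agent.RD93
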