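import Mathlib

set_option autoImplicit false

/-!
Exponential volume of compact open subgroups inside polynomial word balls contradicts rapid decay
(proof by helper88).
-/

open MeasureTheory
open scoped ENNReal

namespace Pool.Agent.LibRD

/-- the length of a product is at most the number of factors times a bound. -/
lemma length_prod_le {H : Type*} [Group H] (L : H → ℝ) (h1 : L 1 = 0)
    (hmul : ∀ g h, L (g * h) ≤ L g + L h) (S : Set H) (B : ℝ) (hB : ∀ x ∈ S, L x ≤ B) :
    ∀ l : List H, (∀ x ∈ l, x ∈ S) → L l.prod ≤ l.length * B := by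
  intro l
  induction l with
  | nil => intro _; simp [h1]
  | cons a l ih =>
    intro h
    have h2 := ih fun x hx => h x (List.mem_cons_of_mem a hx)
    have h3 := hB a (h a List.mem_cons_self)
    have h4 := hmul a l.prod
    rw [List.prod_cons, List.length_cons]
    push_cast
    linarith

/-- polynomial versus exponential. -/
lemma poly_exp_absurd (c M : ℝ) (hc : 0 < c) (k : ℕ)
    (h : ∀ m : ℕ, c * 2 ^ m ≤ M * ((m : ℝ) + 1) ^ k) : False := by
  have h1 := tendsto_pow_const_div_const_pow_of_one_lt k (one_lt_two : (1 : ℝ) < 2)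
  have h2 : Filter.Tendsto (fun m : ℕ => M * (((m + 1 : ℕ) : ℝ) ^ k / 2 ^ (m + 1))) Filter.atTop
      (nhds (M * 0)) := ((Filter.tendsto_add_atTop_iff_nat 1).mpr h1).const_mul M
  rw [mul_zero] at h2
  have h3 : c / 2 ≤ 0 := by
    apply ge_of_tendsto' h2
    intro m
    have h4 := h m
    have h5 : (0 : ℝ) < 2 ^ m := by positivity
    rw [← mul_div_assoc, le_div_iff₀ (by positivity), pow_succ]
    push_cast
    calc c / 2 * (2 ^ m * 2) = c * 2 ^ m := by ring
      _ ≤ _ := h4
  linarith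

theorem not_rd (H : Type*) [TopologicalSpace H] [Group H] [IsTopologicalGroup H] [T2Space H]
      [MeasurableSpace H] [BorelSpace H]
      (ν : Measure H) (hν : ν.IsHaarMeasure) (S : Set H) (hS : IsCompact S)
      (O : ℕ → Subgroup H) (hOc : ∀ m, IsCompact (O m : Set H)) (hOo : ∀ m, IsOpen (O m : Set H))
      (c : ℝ≥0∞) (hc : 0 < c) (hvol : ∀ m, c * 2 ^ m ≤ ν (O m : Set H))
      (p : ℕ → ℕ) (K d : ℕ) (hp : ∀ m, p m ≤ K * (m + 1) ^ d)
      (hO : ∀ m, ∀ g ∈ O m, ∃ l : List H, (∀ x ∈ l, x ∈ S) ∧ l.prod = g ∧ l.length ≤ p m) :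
      ¬ ∃ L : H → ℝ, Measurable L ∧ L 1 = 0 ∧ (∀ g, 0 ≤ L g) ∧ (∀ g, L g⁻¹ = L g) ∧
            (∀ g h, L (g * h) ≤ L g + L h) ∧
            (∀ K : Set H, IsCompact K → BddAbove (L '' K)) ∧
            ∃ C s : ℝ, 0 ≤ C ∧ 0 ≤ s ∧
              ∀ f ξ : H → ℂ, Continuous f → HasCompactSupport f → Continuous ξ →
                HasCompactSupport ξ →
                eLpNorm (fun x => ∫ y, f y * ξ (y⁻¹ * x) ∂ν) 2 ν ≤
                  ENNReal.ofReal C * eLpNorm (fun g => f g * (((1 + L g) ^ s : ℝ) : ℂ)) 2 ν *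
                    eLpNorm ξ 2 ν := by
  rintro ⟨L, -, hL1, hL0, -, hLmul, hLb, C, s, hC, hs, hRD⟩
  -- bound on S
  obtain ⟨B, hB0, hB⟩ : ∃ B : ℝ, 0 ≤ B ∧ ∀ x ∈ S, L x ≤ B := by
    obtain ⟨B, hB⟩ := hLb S hS
    exact ⟨max B 0, le_max_right _ _, fun x hx => (hB ⟨x, hx, rfl⟩).trans (le_max_left _ _)⟩
  have hνfin : ∀ m, ν (O m : Set H) ≠ ∞ := fun m => (hOc m).measure_lt_top.ne
  have hcfin : c ≠ ∞ := by
    intro h
    have := hvol 0
    rw [h] at this
    simp only [pow_zero, mul_one, top_le_iff] at this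
    exact hνfin 0 this
  set s' : ℕ := ⌈s⌉₊ with hs'
  set M : ℝ := 1 + K * B with hM
  have hM1 : 1 ≤ M := by
    have : (0 : ℝ) ≤ K * B := by positivity
    linarith
  -- the length bound
  have hlen : ∀ m, ∀ g ∈ O m, 1 + L g ≤ M * ((m : ℝ) + 1) ^ d := by
    intro m g hg
    obtain ⟨l, hl, hlg, hlp⟩ := hO m g hg
    have h1 := length_prod_le L hL1 hLmul S B hB l hl
    rw [hlg] at h1
    have h2 : (l.length : ℝ) ≤ K * ((m : ℝ) + 1) ^ d := by
      have : l.length ≤ K * (m + 1) ^ d := hlp.trans (hp m)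
      exact_mod_cast this
    have h3 : (l.length : ℝ) * B ≤ K * ((m : ℝ) + 1) ^ d * B := mul_le_mul_of_nonneg_right h2 hB0
    have h4 : (1 : ℝ) ≤ ((m : ℝ) + 1) ^ d := by
      apply one_le_pow₀
      have : (0 : ℝ) ≤ m := Nat.cast_nonneg m
      linarith
    calc 1 + L g ≤ ((m : ℝ) + 1) ^ d + K * ((m : ℝ) + 1) ^ d * B := by linarith
      _ = M * ((m : ℝ) + 1) ^ d := by rw [hM]; ring
  have hpow : ∀ m, ∀ g ∈ O m, (1 + L g) ^ s ≤ (M * ((m : ℝ) + 1) ^ d) ^ s' := by
    intro m g hg
    have h0 := hL0 g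
    calc (1 + L g) ^ s ≤ (1 + L g) ^ (s' : ℝ) :=
          Real.rpow_le_rpow_of_exponent_le (by linarith) (Nat.le_ceil s)
      _ = (1 + L g) ^ s' := Real.rpow_natCast _ _
      _ ≤ _ := pow_le_pow_left₀ (by linarith) (hlen m g hg) _
  refine poly_exp_absurd c.toReal ((C * M ^ s') ^ 2) (ENNReal.toReal_pos hc.ne' hcfin)
    (2 * (d * s')) ?_
  intro m
  set A : ℝ := (M * ((m : ℝ) + 1) ^ d) ^ s' with hA
  have hA0 : 0 ≤ A := by positivity
  set P : Set H := (O m : Set H) with hP
  have hPo : IsOpen P := hOo m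
  have hPc : IsCompact P := hOc m
  have hPm : MeasurableSet P := hPo.measurableSet
  have hPcl : IsClosed P := hPc.isClosed
  have hνP0 : ν P ≠ 0 := by
    intro h
    have := hvol m
    rw [← hP, h, nonpos_iff_eq_zero, mul_eq_zero] at this
    rcases this with h1 | h1
    · exact hc.ne' h1
    · exact (pow_ne_zero m two_ne_zero) h1
  have hνPt : ν P ≠ ∞ := hνfin m
  let f : H → ℂ := P.indicator fun _ => (1 : ℂ)
  have hfc : Continuous f := by
    have : IsClopen P := ⟨hPcl, hPo⟩
    exact (continuous_const).indicator (by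
      intro a ha
      rw [this.frontier_eq] at ha
      exact absurd ha (Set.notMem_empty a))
  have hfs : HasCompactSupport f := by
    apply HasCompactSupport.intro hPc
    intro x hx
    exact Set.indicator_of_notMem hx _
  have hmain := hRD f f hfc hfs hfc hfs
  -- the convolution
  have hconv : (fun x => ∫ y, f y * f (y⁻¹ * x) ∂ν) =
      P.indicator fun _ => (((ν P).toReal : ℝ) : ℂ) := by
    funext x
    by_cases hx : x ∈ P
    · rw [Set.indicator_of_mem hx]
      have : (fun y => f y * f (y⁻¹ * x)) = P.indicator fun _ => (1 : ℂ) := by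
        funext y
        by_cases hy : y ∈ P
        · have h1 : y⁻¹ * x ∈ P := (O m).mul_mem ((O m).inv_mem hy) hx
          simp only [f, Set.indicator_of_mem hy, Set.indicator_of_mem h1, mul_one]
        · simp only [f, Set.indicator_of_notMem hy, zero_mul]
      rw [this, integral_indicator hPm]
      simp [Measure.real]
    · rw [Set.indicator_of_notMem hx]
      have : (fun y => f y * f (y⁻¹ * x)) = fun _ => (0 : ℂ) := by
        funext y
        by_cases hy : y ∈ P
        · have h1 : y⁻¹ * x ∉ P := by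
            intro h
            apply hx
            have := (O m).mul_mem hy h
            rwa [mul_inv_cancel_left] at this
          simp only [f, Set.indicator_of_notMem h1, mul_zero]
        · simp only [f, Set.indicator_of_notMem hy, zero_mul]
      rw [this, integral_zero]
  have h2 : (2 : ℝ≥0∞) ≠ 0 := two_ne_zero
  have h2t : (2 : ℝ≥0∞) ≠ ∞ := ENNReal.ofNat_ne_top
  have e1 : eLpNorm (fun x => ∫ y, f y * f (y⁻¹ * x) ∂ν) 2 ν = ν P * ν P ^ (1 / (2 : ℝ)) := by
    rw [hconv, eLpNorm_indicator_const hPm h2 h2t]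
    congr 1
    rw [← ofReal_norm, Complex.norm_real, Real.norm_of_nonneg ENNReal.toReal_nonneg,
      ENNReal.ofReal_toReal hνPt]
  have e2 : eLpNorm f 2 ν = ν P ^ (1 / (2 : ℝ)) := by
    rw [eLpNorm_indicator_const hPm h2 h2t, enorm_one, one_mul]
    rfl
  have e3 : eLpNorm (fun g => f g * (((1 + L g) ^ s : ℝ) : ℂ)) 2 ν ≤
      ENNReal.ofReal A * ν P ^ (1 / (2 : ℝ)) := by
    have h3 : eLpNorm (P.indicator fun _ => ((A : ℝ) : ℂ)) 2 ν =
        ENNReal.ofReal A * ν P ^ (1 / (2 : ℝ)) := by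
      rw [eLpNorm_indicator_const hPm h2 h2t]
      congr 1
      rw [← ofReal_norm, Complex.norm_real, Real.norm_of_nonneg hA0]
    rw [← h3]
    apply eLpNorm_mono
    intro g
    by_cases hg : g ∈ P
    · simp only [f, Set.indicator_of_mem hg, one_mul, Complex.norm_real]
      have h4 : 0 ≤ (1 + L g) ^ s := Real.rpow_nonneg (by have := hL0 g; linarith) _
      rw [Real.norm_of_nonneg h4, Real.norm_of_nonneg hA0]
      exact hpow m g hg
    · simp only [f, Set.indicator_of_notMem hg, zero_mul, norm_zero]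
      exact le_refl _
  set w : ℝ≥0∞ := ν P ^ (1 / (2 : ℝ)) with hw
  have hww : w * w = ν P := by
    rw [hw, ← ENNReal.rpow_add _ _ hνP0 hνPt]
    norm_num
  have hw0 : w ≠ 0 := by
    intro h
    rw [h, mul_zero] at hww
    exact hνP0 hww.symm
  have hwt : w ≠ ∞ := by
    intro h
    rw [h, ENNReal.top_mul_top] at hww
    exact hνPt hww.symm
  have h5 : ν P * w ≤ ENNReal.ofReal C * (ENNReal.ofReal A * w) * w := by
    calc ν P * w = eLpNorm (fun x => ∫ y, f y * f (y⁻¹ * x) ∂ν) 2 ν := e1.symm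
      _ ≤ _ := hmain
      _ ≤ ENNReal.ofReal C * (ENNReal.ofReal A * w) * w := by
          rw [e2]
          gcongr
  have h6 : w ≤ ENNReal.ofReal (C * A) := by
    have h7 : w * (w * w) ≤ ENNReal.ofReal (C * A) * (w * w) := by
      calc w * (w * w) = ν P * w := by rw [hww, mul_comm]
        _ ≤ _ := h5
        _ = ENNReal.ofReal (C * A) * (w * w) := by
            rw [ENNReal.ofReal_mul hC]
            ring
    exact (ENNReal.mul_le_mul_iff_left (mul_ne_zero hw0 hw0) (ENNReal.mul_ne_top hwt hwt)).mp h7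
  have h8 : c * 2 ^ m ≤ ENNReal.ofReal ((C * A) ^ 2) := by
    calc c * 2 ^ m ≤ ν P := hvol m
      _ = w * w := hww.symm
      _ ≤ ENNReal.ofReal (C * A) * ENNReal.ofReal (C * A) := mul_le_mul' h6 h6
      _ = ENNReal.ofReal ((C * A) ^ 2) := by
          rw [← ENNReal.ofReal_mul (by positivity), sq]
  have h9 := ENNReal.toReal_mono ENNReal.ofReal_ne_top h8
  rw [ENNReal.toReal_ofReal (by positivity), ENNReal.toReal_mul, ENNReal.toReal_pow] at h9
  have h10 : (2 : ℝ≥0∞).toReal = 2 := by simp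
  rw [h10] at h9
  calc c.toReal * 2 ^ m ≤ (C * A) ^ 2 := h9
    _ = (C * M ^ s') ^ 2 * ((m : ℝ) + 1) ^ (2 * (d * s')) := by
        rw [hA, mul_pow M, ← pow_mul]
        ring

end Pool.Agent.LibRD
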