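import Pool.Agent.LibRD.Sites

/-! Polynomial word length of the elements of the base block groups. -/

set_option autoImplicit false

namespace Pool.Agent.LibRD

open Pool.Agent.RD54

section WL

variable {H : Type*} [Group H]

/-- products of at most `n` elements of `S` -/
def WL (S : Set H) (n : ℕ) : Set H := {g | ∃ l : List H, (∀ x ∈ l, x ∈ S) ∧ l.prod = g ∧ l.length ≤ n}

theorem WL_one (S : Set H) (n : ℕ) : (1 : H) ∈ WL S n := ⟨[], by simp, by simp, by simp⟩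

theorem WL_mono {S : Set H} {m n : ℕ} (h : m ≤ n) : WL S m ⊆ WL S n := by
  rintro g ⟨l, h1, h2, h3⟩
  exact ⟨l, h1, h2, h3.trans h⟩

theorem WL_of_mem {S : Set H} {g : H} (h : g ∈ S) : g ∈ WL S 1 := ⟨[g], by simpa using h, by simp, by simp⟩

theorem WL_mul {S : Set H} {m n : ℕ} {g h : H} (hg : g ∈ WL S m) (hh : h ∈ WL S n) :
    g * h ∈ WL S (m + n) := by
  obtain ⟨l, h1, h2, h3⟩ := hg
  obtain ⟨l', h1', h2', h3'⟩ := hh
  refine ⟨l ++ l', ?_, by rw [List.prod_append, h2, h2'], by rw [List.length_append]; omega⟩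
  intro x hx
  rcases List.mem_append.1 hx with h | h
  · exact h1 x h
  · exact h1' x h

theorem WL_inv {S : Set H} (hS : ∀ x ∈ S, x⁻¹ ∈ S) {m : ℕ} {g : H} (hg : g ∈ WL S m) :
    g⁻¹ ∈ WL S m := by
  obtain ⟨l, h1, h2, h3⟩ := hg
  refine ⟨(l.map fun x => x⁻¹).reverse, ?_, ?_, ?_⟩
  · intro x hx
    rw [List.mem_reverse, List.mem_map] at hx
    obtain ⟨y, hy, rfl⟩ := hx
    exact hS y (h1 y hy)
  · rw [← h2, List.prod_inv_reverse]
  · simpa using h3

theorem WL_pow {S : Set H} {m : ℕ} {g : H} (hg : g ∈ WL S m) (k : ℕ) : g ^ k ∈ WL S (k * m) := by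
  induction k with
  | zero => simpa using WL_one S 0
  | succ k ih =>
    rw [pow_succ]
    exact WL_mono (by ring_nf; omega) (WL_mul ih hg)

theorem WL_list {S : Set H} {m : ℕ} (l : List H) (h : ∀ x ∈ l, x ∈ WL S m) :
    l.prod ∈ WL S (l.length * m) := by
  induction l with
  | nil => simpa using WL_one S 0
  | cons a l ih =>
    rw [List.prod_cons, List.length_cons]
    refine WL_mono (le_of_eq ?_) (WL_mul (h a (by simp)) (ih fun x hx => h x (by simp [hx])))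
    ring

theorem WL_conj {S : Set H} (hS : ∀ x ∈ S, x⁻¹ ∈ S) {m n : ℕ} {g h : H} (hg : g ∈ WL S m)
    (hh : h ∈ WL S n) : g * h * g⁻¹ ∈ WL S (2 * m + n) :=
  WL_mono (by omega) (WL_mul (WL_mul hg hh) (WL_inv hS hg))

end WL

section Base

variable {H : Type*} [Group H] {S : Set H} (hS : ∀ x ∈ S, x⁻¹ ∈ S)
  (jF : FF →* H) (hF : ∀ i, jF (fg i) ∈ S)

include hS hF

theorem WL_ft_pow (k : ℕ) : jF (ft ^ k) ∈ WL S (2 * k) := by
  rw [map_pow]
  have h1 : jF ft ∈ WL S 2 := by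
    unfold ft
    rw [map_mul]
    exact WL_mul (WL_of_mem (hF 1)) (WL_of_mem (hF 0))
  exact WL_mono (by omega) (WL_pow h1 k)

theorem WL_site (i k N : ℕ) (hi : i ≤ N) (hk : k ≤ N) : jF (site i k) ∈ WL S (4 * N + 1) := by
  unfold site
  split_ifs with h
  · rw [map_mul, map_mul, map_inv]
    exact WL_mono (by omega) (WL_conj hS (WL_ft_pow hS jF hF i) (WL_of_mem (hF 3)))
  · rw [map_mul, map_mul, map_inv]
    exact WL_mono (by omega) (WL_conj hS (WL_ft_pow hS jF hF k) (WL_of_mem (hF 2)))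

variable (j1 : W1 FF →* H) (h1 : j1 (gen _ (1, 0)) ∈ S)
  (hc1 : ∀ (γ : FF), jF γ * j1 (gen _ (1, 0)) * (jF γ)⁻¹ = j1 (gen _ (γ, 0)))

include h1 hc1

theorem WL_letter (i k N : ℕ) (hi : i ≤ N) (hk : k ≤ N) :
    j1 (gen _ (1 * site i k, (0 : ZMod 2))) ∈ WL S (8 * N + 3) := by
  rw [one_mul, ← hc1]
  exact WL_mono (by omega) (WL_conj hS (WL_site hS jF hF i k N hi hk) (WL_of_mem h1))

theorem WL_leg (i N : ℕ) (hi : i ≤ N) :
    j1 (bpt site 1 1 (List.replicate N 0) i) ∈ WL S (N * (8 * N + 3)) := by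
  unfold bpt
  rw [one_mul]
  unfold wp
  rw [map_list_prod, List.map_map]
  have h2 : ((lam site 1 (List.replicate N 0) i).map (⇑j1 ∘ gen _)).length = N := by simp
  have h3 : ∀ x ∈ (lam site 1 (List.replicate N 0) i).map (⇑j1 ∘ gen _), x ∈ WL S (8 * N + 3) := by
    intro x hx
    obtain ⟨p, hp, rfl⟩ := List.mem_map.1 hx
    obtain ⟨k, hk, rfl⟩ := List.getElem_of_mem hp
    rw [getElem_lam]
    simp only [List.getElem_replicate, Function.comp]
    have hk' : k < N := by simpa using hk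
    exact WL_letter hS jF hF j1 h1 hc1 i k N hi hk'.le
  have h4 := WL_list _ h3
  rwa [h2] at h4

variable (j2 : Rac (Lam site) →* H) (h2 : j2 (gen _ 1) ∈ S)
  (hc2 : ∀ (w : W1 FF), j1 w * j2 (gen _ 1) * (j1 w)⁻¹ = j2 (gen _ w))

include h2 hc2

theorem WL_lamp (i N : ℕ) (hi : i ≤ N) :
    j2 (gen _ (bpt site 1 1 (List.replicate N 0) i)) ∈ WL S (2 * (N * (8 * N + 3)) + 1) := by
  rw [← hc2]
  exact WL_conj hS (WL_leg hS jF hF j1 h1 hc1 i N hi) (WL_of_mem h2)

end Base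

end Pool.Agent.LibRD
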