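import Pool.Agent.LibRD93.Ker
import Pool.Agent.LibRD.Words
import Pool.Agent.LibRD.Hblk
import Pool.Agent.LibRD.NotRD

/-! The kernel of the homomorphism to `ℤ → ZMod 2` does not have rapid decay. -/

set_option autoImplicit false

open MeasureTheory Topology
open scoped ENNReal Pointwise

namespace Pool.Agent.RD93

open Pool.Agent.RD54

/-! ### Subgroups of cliques -/

theorem clique_sub {V : Type*} {L : SimpleGraph V} {S : Set V} (hS : S.Finite)
    (hc : ∀ x ∈ S, ∀ y ∈ S, x ≠ y → L.Adj x y) :
    2 ^ S.ncard ≤ (sub L S : Set (Rac L)).ncard ∧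
    ∀ w ∈ sub L S, ∃ l : List V, (∀ a ∈ l, a ∈ S) ∧ wp L l = w ∧ l.length ≤ S.ncard := by
  classical
  induction S, hS using Set.Finite.induction_on with
  | empty =>
    have : (sub L (∅ : Set V) : Set (Rac L)) = {1} := by
      ext w
      simp [sub]
    refine ⟨by rw [this]; simp, ?_⟩
    intro w hw
    have hw' : w ∈ (sub L (∅ : Set V) : Set (Rac L)) := hw
    rw [this] at hw'
    exact ⟨[], by simp, by rw [wp_nil]; exact hw'.symm, by simp⟩
  | @insert a S ha hS ih =>
    have hc' : ∀ x ∈ S, ∀ y ∈ S, x ≠ y → L.Adj x y :=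
      fun x hx y hy => hc x (Or.inr hx) y (Or.inr hy)
    obtain ⟨h1, h2⟩ := ih hc'
    have hcard : (insert a S).ncard = S.ncard + 1 := Set.ncard_insert_of_notMem ha hS
    have comm : ∀ w ∈ sub L S, gen L a * w = w * gen L a := by
      intro w hw
      obtain ⟨l, hl, rfl⟩ := exists_wp_of_mem_sub hw
      exact (wp_comm (fun b hb => hc b (Or.inr (hl b hb)) a (Or.inl rfl)
        (fun e => ha (e ▸ hl b hb)))).symm
    constructor
    · obtain ⟨f1, -⟩ := finite_sub hS hc'
      obtain ⟨f2, -⟩ := finite_sub (hS.insert a) hc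
      have hdisj : Disjoint (sub L S : Set (Rac L))
          ((fun w => gen L a * w) '' (sub L S : Set (Rac L))) := by
        rw [Set.disjoint_left]
        rintro w hw ⟨v, hv, hv2⟩
        apply ha
        apply mem_of_gen_mem_sub (L := L)
        have : gen L a = w * v⁻¹ := by
          rw [← hv2]; group
        rw [this]
        exact Subgroup.mul_mem _ hw (Subgroup.inv_mem _ hv)
      have hsub : (sub L S : Set (Rac L)) ∪ ((fun w => gen L a * w) '' (sub L S : Set (Rac L))) ⊆
          (sub L (insert a S) : Set (Rac L)) := by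
        rintro w (hw | ⟨v, hv, rfl⟩)
        · exact sub_mono (Set.subset_insert a S) hw
        · exact Subgroup.mul_mem _ (gen_mem_sub (Set.mem_insert a S))
            (sub_mono (Set.subset_insert a S) hv)
      have e1 := Set.ncard_le_ncard hsub f2
      rw [Set.ncard_union_eq hdisj f1 (f1.image _),
        Set.ncard_image_of_injective _ (mul_right_injective _)] at e1
      rw [hcard, pow_succ]
      omega
    · intro w hw
      have key : (∃ l : List V, (∀ a ∈ l, a ∈ S) ∧ wp L l = w) ∨
          (∃ l : List V, (∀ a ∈ l, a ∈ S) ∧ gen L a * wp L l = w) := by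
        obtain ⟨l, hl, rfl⟩ := exists_wp_of_mem_sub hw
        clear hw
        induction l with
        | nil => left; exact ⟨[], by simp, rfl⟩
        | cons b l ih =>
          have ih' := ih (fun c hc => hl c (by simp [hc]))
          rw [wp_cons]
          rcases hl b (by simp) with rfl | hb
          · rcases ih' with ⟨l', hl', e'⟩ | ⟨l', hl', e'⟩
            · right; exact ⟨l', hl', by rw [e']⟩
            · left
              exact ⟨l', hl', by rw [← e', gen_mul_gen_cancel]⟩
          · rcases ih' with ⟨l', hl', e'⟩ | ⟨l', hl', e'⟩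
            · left
              refine ⟨b :: l', ?_, by rw [wp_cons, e']⟩
              intro c hc
              rcases List.mem_cons.1 hc with rfl | hc
              · exact hb
              · exact hl' c hc
            · right
              refine ⟨b :: l', ?_, ?_⟩
              · intro c hc
                rcases List.mem_cons.1 hc with rfl | hc
                · exact hb
                · exact hl' c hc
              · rw [← e', wp_cons, ← mul_assoc, comm _ (gen_mem_sub hb), mul_assoc]
      rcases key with ⟨l, hl, e⟩ | ⟨l, hl, e⟩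
      · obtain ⟨l', hl', e', hlen⟩ := h2 w (by rw [← e]; exact wp_mem_sub hl)
        exact ⟨l', fun c hc => Or.inr (hl' c hc), e', by omega⟩
      · obtain ⟨l', hl', e', hlen⟩ := h2 (wp L l) (wp_mem_sub hl)
        refine ⟨a :: l', ?_, ?_, ?_⟩
        · intro c hc
          rcases List.mem_cons.1 hc with rfl | hc
          · exact Or.inl rfl
          · exact Or.inr (hl' c hc)
        · rw [wp_cons, e', e]
        · rw [List.length_cons]; omega

/-! ### Embeddings into the kernel -/

/-- Inclusion of `FF`. -/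
noncomputable def jF : FF →* HH :=
  ((SemidirectProduct.inr (φ := phi2)).comp
    ((SemidirectProduct.inr (φ := phi1)).comp (SemidirectProduct.inr (φ := actF)))).codRestrict HH
    (fun _ => (mem_HH _).2 rfl)

/-- Inclusion of `W1`. -/
noncomputable def j1 : W1 →* HH :=
  ((SemidirectProduct.inr (φ := phi2)).comp
    (SemidirectProduct.inl (φ := phi1))).codRestrict HH
    (fun _ => (mem_HH _).2 rfl)

/-- Inclusion of `W2`. -/
noncomputable def j2 : W2 →* HH :=
  (SemidirectProduct.inl (φ := phi2)).codRestrict HH (fun _ => (mem_HH _).2 rfl)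

theorem jF_val (f : FF) : (jF f : GG) = SemidirectProduct.inr (SemidirectProduct.inr
  (SemidirectProduct.inr f)) := rfl
theorem j1_val (w : W1) : (j1 w : GG) = SemidirectProduct.inr (SemidirectProduct.inl w) := rfl
theorem j2_val (w : W2) : (j2 w : GG) = SemidirectProduct.inl w := rfl

theorem hc1 (γ : FF) : jF γ * j1 (gen _ (1, 0)) * (jF γ)⁻¹ = j1 (gen _ (γ, 0)) := by
  apply Subtype.ext
  rw [Subgroup.coe_mul, Subgroup.coe_mul, Subgroup.coe_inv, jF_val, j1_val, j1_val,
    ← map_inv (SemidirectProduct.inr (φ := phi2)), ← map_mul, ← map_mul,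
    ← map_inv (SemidirectProduct.inr (φ := phi1)), ← SemidirectProduct.inl_aut, phi1_gen, smul_V1]
  simp

theorem hc2 (w : W1) : j1 w * j2 (gen _ 1) * (j1 w)⁻¹ = j2 (gen _ w) := by
  apply Subtype.ext
  rw [Subgroup.coe_mul, Subgroup.coe_mul, Subgroup.coe_inv, j1_val, j2_val, j2_val,
    ← map_inv (SemidirectProduct.inr (φ := phi2)), ← SemidirectProduct.inl_aut, phi2_gen, smul_W1]
  simp

/-! ### The generating set and the compact open subgroups -/

/-- The element with components `w` and `m`. -/
noncomputable def ptG (w : W2) (m : MM) : GG := ⟨w, ⟨1, ⟨m, 1⟩⟩⟩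

theorem continuous_ptG : Continuous (fun p : W2 × MM => ptG p.1 p.2) :=
  continuous_mk continuous_fst (continuous_mk continuous_const
    (continuous_mk continuous_snd continuous_const))

/-- The compact part of `HH`. -/
def C0 : Set HH := {h | h.1.left = 1 ∧ h.1.right.left = 1 ∧ h.1.right.right.right = 1}

/-- Subsets of `HH` supported over finitely many lamp configurations and closed are compact. -/
theorem isCompact_of_left {A : Set W2} (hA : A.Finite) {T : Set HH} (hT : IsClosed T)
    (h : ∀ x ∈ T, x.1.left ∈ A ∧ x.1.right.left = 1 ∧ x.1.right.right.right = 1) :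
    IsCompact T := by
  rw [Subtype.isCompact_iff]
  have h1 : IsCompact ((fun p : W2 × MM => ptG p.1 p.2) '' (A ×ˢ (Set.univ : Set MM))) :=
    (hA.isCompact.prod isCompact_univ).image continuous_ptG
  refine h1.of_isClosed_subset (isClosed_HH.isClosedEmbedding_subtypeVal.isClosedMap _ hT) ?_
  rintro _ ⟨x, hx, rfl⟩
  obtain ⟨a1, a2, a3⟩ := h x hx
  refine ⟨(x.1.left, x.1.right.right.left), ⟨a1, trivial⟩, ?_⟩
  apply SemidirectProduct.ext
  · rfl
  · apply SemidirectProduct.ext
    · exact a2.symm
    · apply SemidirectProduct.ext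
      · rfl
      · exact a3.symm

theorem cont1 : Continuous (fun h : HH => h.1.left) := continuous_left.comp continuous_subtype_val
theorem cont2 : Continuous (fun h : HH => h.1.right.left) :=
  continuous_left.comp (continuous_right.comp continuous_subtype_val)
theorem cont3 : Continuous (fun h : HH => h.1.right.right.right) :=
  continuous_right.comp (continuous_right.comp (continuous_right.comp continuous_subtype_val))
theorem cont4 : Continuous (fun h : HH => (Multiplicative.toAdd h.1.right.right.left).1 0) :=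
  (continuous_apply 0).comp (continuous_fst.comp (continuous_toAdd.comp
    (continuous_left.comp (continuous_right.comp (continuous_right.comp continuous_subtype_val)))))

theorem isCompact_C0 : IsCompact C0 := by
  apply isCompact_of_left (A := {1}) (Set.finite_singleton _)
  · have e : C0 = (fun h : HH => h.1.left) ⁻¹' {1} ∩ ((fun h : HH => h.1.right.left) ⁻¹' {1} ∩
      (fun h : HH => h.1.right.right.right) ⁻¹' {1}) := rfl
    rw [e]
    exact ((isClosed_discrete _).preimage cont1).inter
      (((isClosed_discrete _).preimage cont2).inter ((isClosed_discrete _).preimage cont3))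
  · rintro x ⟨h1, h2, h3⟩
    exact ⟨h1, h2, h3⟩

/-- A compact symmetric set. -/
noncomputable def SS : Set HH :=
  C0 ∪ (Set.range (fun i : Fin 4 => jF (LibRD.fg i)) ∪ {j1 (gen _ (1, 0)), j2 (gen _ 1)})

theorem isCompact_SS : IsCompact SS :=
  isCompact_C0.union ((Set.finite_range _).isCompact.union (Set.toFinite _).isCompact)

theorem inv_mem_SS : ∀ x ∈ SS, x⁻¹ ∈ SS := by
  rintro x (⟨h1, h2, h3⟩ | ⟨i, rfl⟩ | hx)
  · left
    have e : (x⁻¹ : HH).1 = (x.1)⁻¹ := rfl
    refine ⟨?_, ?_, ?_⟩
    · rw [e, SemidirectProduct.inv_left, h1]; simp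
    · rw [e, SemidirectProduct.inv_right, SemidirectProduct.inv_left, h2]; simp
    · rw [e, SemidirectProduct.inv_right, SemidirectProduct.inv_right,
        SemidirectProduct.inv_right, h3]; simp
  · right; left
    refine ⟨i, ?_⟩
    simp only
    rw [← map_inv]
    congr 1
    exact (gen_inv i).symm
  · right; right
    rcases hx with rfl | hx
    · left
      rw [← map_inv, gen_inv]
    · right
      rw [Set.mem_singleton_iff] at hx
      rw [hx, Set.mem_singleton_iff, ← map_inv, gen_inv]

/-- The block of size `N`. -/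
noncomputable def BB (N : ℕ) : Set W1 := LibRD.bset site 1 1 (List.replicate N 0)

theorem BB_clique (N : ℕ) : ∀ x ∈ BB N, ∀ y ∈ BB N, x ≠ y → Lam.Adj x y :=
  fun _ hx _ hy h => LibRD.bset_clique hx hy h

theorem BB_finite (N : ℕ) : (BB N).Finite := LibRD.bset_finite _ _ _

theorem BB_card (N : ℕ) : (BB N).ncard = N := by
  unfold BB
  rw [LibRD.ncard_bset siteOK]; simp

theorem dig_dsite_of {m : MM} (h1 : (Multiplicative.toAdd m).1 0 = 0)
    (h2 : (Multiplicative.toAdd m).2 = 0) (k : ℕ) : dig (1 * dsite k) m = 0 := by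
  rw [one_mul]
  cases k with
  | zero => rw [dig_dsite_zero, h1]
  | succ k => rw [dig_dsite_succ, h1, h2]; simp

theorem smul_BB {h : G1} (h1 : h.left = 1) (h2 : h.right.right = 1)
    (h3 : (Multiplicative.toAdd h.right.left).1 0 = 0)
    (h4 : (Multiplicative.toAdd h.right.left).2 = 0) (N : ℕ) :
    (fun x => h • x) '' BB N = BB N := by
  unfold BB
  rw [smul_bset, h2, mul_one, smul_W1, h1, map_one, mul_one]
  congr 1
  apply List.ext_getElem
  · simp
  · intro k k1 k2
    rw [getElem_dact, dig_dsite_of h3 h4, add_zero]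

/-- The compact open subgroups of `HH`. -/
noncomputable def OO (N : ℕ) : Subgroup HH where
  carrier := {h | h.1.left ∈ sub Lam (BB N) ∧ h.1.right.left = 1 ∧ h.1.right.right.right = 1 ∧
    (Multiplicative.toAdd h.1.right.right.left).1 0 = 0}
  one_mem' := ⟨Subgroup.one_mem _, rfl, rfl, rfl⟩
  mul_mem' := by
    rintro x y ⟨a1, a2, a3, a4⟩ ⟨b1, b2, b3, b4⟩
    have e : (x * y).1 = x.1 * y.1 := rfl
    refine ⟨?_, ?_, ?_, ?_⟩
    · rw [e, SemidirectProduct.mul_left]
      apply Subgroup.mul_mem _ a1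
      have := racAct_mem_sub lam_adj_smul x.1.right b1
      rw [smul_BB a2 a3 a4 ((mem_HH _).1 x.2)] at this
      exact this
    · rw [e, SemidirectProduct.mul_right, SemidirectProduct.mul_left, a2, b2]; simp
    · rw [e, SemidirectProduct.mul_right, SemidirectProduct.mul_right,
        SemidirectProduct.mul_right, a3, b3]; simp
    · rw [e, SemidirectProduct.mul_right, SemidirectProduct.mul_right,
        SemidirectProduct.mul_left, a3, map_one, toAdd_mul, Prod.fst_add, Pi.add_apply, a4]
      simpa using b4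
  inv_mem' := by
    rintro x ⟨a1, a2, a3, a4⟩
    have e : (x⁻¹).1 = (x.1)⁻¹ := rfl
    have c2 : (x.1)⁻¹.right.left = 1 := by
      rw [SemidirectProduct.inv_right, SemidirectProduct.inv_left, a2]; simp
    have c3 : (x.1)⁻¹.right.right.right = 1 := by
      rw [SemidirectProduct.inv_right, SemidirectProduct.inv_right,
        SemidirectProduct.inv_right, a3]; simp
    have c4 : (Multiplicative.toAdd (x.1)⁻¹.right.right.left).1 0 = 0 := by
      rw [SemidirectProduct.inv_right, SemidirectProduct.inv_right,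
        SemidirectProduct.inv_left, a3, inv_one, map_one, MulAut.one_apply, toAdd_inv,
        Prod.fst_neg, Pi.neg_apply, a4, neg_zero]
    refine ⟨?_, c2, c3, c4⟩
    rw [e, SemidirectProduct.inv_left]
    have := racAct_mem_sub lam_adj_smul (x.1)⁻¹.right (Subgroup.inv_mem _ a1)
    rw [smul_BB c2 c3 c4 ((mem_HH _).1 (x⁻¹).2)] at this
    exact this

theorem mem_OO {N : ℕ} {h : HH} : h ∈ OO N ↔ h.1.left ∈ sub Lam (BB N) ∧ h.1.right.left = 1 ∧
    h.1.right.right.right = 1 ∧ (Multiplicative.toAdd h.1.right.right.left).1 0 = 0 := Iff.rfl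

theorem isClopen_OO (N : ℕ) : IsClopen (OO N : Set HH) := by
  have e : (OO N : Set HH) = (fun h : HH => h.1.left) ⁻¹' (sub Lam (BB N)) ∩
      ((fun h : HH => h.1.right.left) ⁻¹' {1} ∩
      ((fun h : HH => h.1.right.right.right) ⁻¹' {1} ∩
      (fun h : HH => (Multiplicative.toAdd h.1.right.right.left).1 0) ⁻¹' {0})) := rfl
  rw [e]
  exact ((isClopen_discrete _).preimage cont1).inter (((isClopen_discrete _).preimage cont2).inter
    (((isClopen_discrete _).preimage cont3).inter ((isClopen_discrete _).preimage cont4)))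

theorem isCompact_OO (N : ℕ) : IsCompact (OO N : Set HH) := by
  apply isCompact_of_left (finite_sub (BB_finite N) (BB_clique N)).1 (isClopen_OO N).1
  rintro x ⟨h1, h2, h3, -⟩
  exact ⟨h1, h2, h3⟩

/-! ### Word length -/

theorem j2_wp_mem (N : ℕ) (l : List W1) (hl : ∀ a ∈ l, a ∈ BB N) :
    j2 (wp _ l) ∈ LibRD.WL SS (l.length * (2 * (N * (8 * N + 3)) + 1)) := by
  have hF : ∀ i, jF (LibRD.fg i) ∈ SS := fun i => Or.inr (Or.inl ⟨i, rfl⟩)
  have h1 : j1 (gen _ (1, 0)) ∈ SS := Or.inr (Or.inr (Or.inl rfl))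
  have h2 : j2 (gen _ 1) ∈ SS := Or.inr (Or.inr (Or.inr rfl))
  unfold wp
  rw [map_list_prod, List.map_map]
  have h3 : ∀ x ∈ l.map (⇑j2 ∘ gen _), x ∈ LibRD.WL SS (2 * (N * (8 * N + 3)) + 1) := by
    intro x hx
    obtain ⟨p, hp, rfl⟩ := List.mem_map.1 hx
    obtain ⟨i, hi, rfl⟩ := hl p hp
    have hi' : i < N := by simpa using hi
    exact LibRD.WL_lamp inv_mem_SS jF hF j1 h1 hc1 j2 h2 hc2 i N hi'.le
  have h4 := LibRD.WL_list _ h3
  rwa [List.length_map] at h4

theorem OO_word (N : ℕ) (g : HH) (hg : g ∈ OO N) :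
    ∃ l : List HH, (∀ x ∈ l, x ∈ SS) ∧ l.prod = g ∧
      l.length ≤ N * (2 * (N * (8 * N + 3)) + 1) + 1 := by
  obtain ⟨a1, a2, a3, a4⟩ := hg
  obtain ⟨l, hl, e, hlen⟩ := (clique_sub (BB_finite N) (BB_clique N)).2 _ a1
  rw [BB_card] at hlen
  have hc : (j2 g.1.left)⁻¹ * g ∈ C0 := by
    have e1 : ((j2 g.1.left)⁻¹ * g).1 = (SemidirectProduct.inl g.1.left)⁻¹ * g.1 := rfl
    refine ⟨?_, ?_, ?_⟩
    · rw [e1, ← map_inv, SemidirectProduct.mul_left]; simp
    · rw [e1, ← map_inv, SemidirectProduct.mul_right]; simpa using a2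
    · rw [e1, ← map_inv, SemidirectProduct.mul_right]; simpa using a3
  have h1 : j2 g.1.left ∈ LibRD.WL SS (N * (2 * (N * (8 * N + 3)) + 1)) := by
    rw [← e]
    exact LibRD.WL_mono (Nat.mul_le_mul_right _ hlen) (j2_wp_mem N l hl)
  have h2 : (j2 g.1.left)⁻¹ * g ∈ LibRD.WL SS 1 := LibRD.WL_of_mem (Or.inl hc)
  have h3 := LibRD.WL_mul h1 h2
  rw [mul_inv_cancel_left] at h3
  exact h3

/-! ### Volume -/

theorem OO_vol [MeasurableSpace GG] [BorelSpace GG] (ν : Measure HH) [ν.IsMulLeftInvariant]
    (N : ℕ) : ν (OO 0 : Set HH) * 2 ^ N ≤ ν (OO N : Set HH) := by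
  classical
  have hfin := (finite_sub (BB_finite N) (BB_clique N)).1
  have hcard := (clique_sub (BB_finite N) (BB_clique N)).1
  rw [BB_card] at hcard
  let T : Finset W2 := hfin.toFinset
  have hT : 2 ^ N ≤ T.card := by
    rwa [← Set.ncard_eq_toFinset_card _ hfin]
  have hleft : ∀ x ∈ OO 0, x.1.left = 1 := by
    rintro x ⟨a1, -⟩
    have hB : BB 0 = ∅ := by
      rw [← Set.ncard_eq_zero (BB_finite 0), BB_card]
    rw [hB] at a1
    have : (sub Lam (∅ : Set W1)) = ⊥ := by simp [sub]
    rw [this] at a1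
    exact a1
  have hleft2 : ∀ w : W2, ∀ x ∈ j2 w • (OO 0 : Set HH), x.1.left = w := by
    rintro w x ⟨y, hy, rfl⟩
    have e1 : (j2 w • y).1 = SemidirectProduct.inl w * y.1 := rfl
    simp only
    rw [e1, SemidirectProduct.mul_left, hleft y hy]
    simp
  have hdisj : (T : Set W2).PairwiseDisjoint (fun w => j2 w • (OO 0 : Set HH)) := by
    intro w _ w' _ hne
    rw [Function.onFun, Set.disjoint_left]
    intro x hx hx'
    exact hne ((hleft2 w x hx).symm.trans (hleft2 w' x hx'))
  have hmeas : ∀ w ∈ T, MeasurableSet (j2 w • (OO 0 : Set HH)) := by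
    intro w _
    exact ((isClopen_OO 0).2.smul _).measurableSet
  have hsub : (⋃ w ∈ T, j2 w • (OO 0 : Set HH)) ⊆ (OO N : Set HH) := by
    intro x hx
    simp only [Set.mem_iUnion] at hx
    obtain ⟨w, hw, y, hy, rfl⟩ := hx
    have hw' : w ∈ sub Lam (BB N) := by
      have := hfin.mem_toFinset.1 hw
      exact this
    have hy' := hy
    obtain ⟨a1, a2, a3, a4⟩ := hy'
    have e1 : (j2 w • y).1 = SemidirectProduct.inl w * y.1 := rfl
    refine ⟨?_, ?_, ?_, ?_⟩
    · have := hleft2 w _ ⟨y, hy, rfl⟩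
      simp only at this ⊢
      rw [this]; exact hw'
    · simp only
      rw [e1, SemidirectProduct.mul_right]; simpa using a2
    · simp only
      rw [e1, SemidirectProduct.mul_right]; simpa using a3
    · simp only
      rw [e1, SemidirectProduct.mul_right]; simpa using a4
  calc ν (OO 0 : Set HH) * 2 ^ N ≤ ν (OO 0 : Set HH) * (T.card : ℝ≥0∞) := by
        gcongr
        exact_mod_cast hT
    _ = ∑ w ∈ T, ν (j2 w • (OO 0 : Set HH)) := by
        simp only [measure_smul]
        rw [Finset.sum_const, nsmul_eq_mul, mul_comm]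
    _ = ν (⋃ w ∈ T, j2 w • (OO 0 : Set HH)) := (measure_biUnion_finset hdisj hmeas).symm
    _ ≤ _ := measure_mono hsub

/-- The subgroup does not have rapid decay. -/
theorem HH_not_rd [MeasurableSpace GG] [BorelSpace GG] (ν : Measure HH) (hν : ν.IsHaarMeasure) :
    ¬ ∃ L : HH → ℝ, Measurable L ∧ L 1 = 0 ∧ (∀ g, 0 ≤ L g) ∧ (∀ g, L g⁻¹ = L g) ∧
            (∀ g h, L (g * h) ≤ L g + L h) ∧
            (∀ K : Set HH, IsCompact K → BddAbove (L '' K)) ∧
            ∃ C s : ℝ, 0 ≤ C ∧ 0 ≤ s ∧
              ∀ f ξ : HH → ℂ, Continuous f → HasCompactSupport f → Continuous ξ →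
                HasCompactSupport ξ →
                eLpNorm (fun x => ∫ y, f y * ξ (y⁻¹ * x) ∂ν) 2 ν ≤
                  ENNReal.ofReal C * eLpNorm (fun g => f g * (((1 + L g) ^ s : ℝ) : ℂ)) 2 ν *
                    eLpNorm ξ 2 ν := by
  apply LibRD.not_rd HH ν hν SS isCompact_SS OO isCompact_OO (fun m => (isClopen_OO m).2)
    (ν (OO 0 : Set HH)) ?_ (OO_vol ν) (fun N => N * (2 * (N * (8 * N + 3)) + 1) + 1) 100 3 ?_ OO_word
  · exact (isClopen_OO 0).2.measure_pos ν ⟨1, Subgroup.one_mem _⟩
  · intro N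
    ring_nf
    nlinarith [Nat.zero_le N]

end Pool.Agent.RD93
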