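import Pool.Agent.LibRD.Glue

/-! The concrete sites in `F`, the free product of four groups of order two. -/

set_option autoImplicit false

namespace Pool.Agent.LibRD

open Pool.Agent.RD54

/-- The group `F`. -/
abbrev FF : Type := Rac (⊥ : SimpleGraph (Fin 4))

/-- the generators of `F` -/
noncomputable def fg (i : Fin 4) : FF := gen (⊥ : SimpleGraph (Fin 4)) i

/-- the translation `r1 * r0` -/
noncomputable def ft : FF := fg 1 * fg 0

/-- the sites -/
noncomputable def site (i k : ℕ) : FF :=
  if k = 0 then ft ^ i * fg 3 * (ft ^ i)⁻¹ else ft ^ k * fg 2 * (ft ^ k)⁻¹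

/-- flip of the fibre over `n` -/
def flipP (n : ℤ) : Equiv.Perm (ℤ × ZMod 2) where
  toFun p := (p.1, if p.1 = n then p.2 + 1 else p.2)
  invFun p := (p.1, if p.1 = n then p.2 + 1 else p.2)
  left_inv p := by
    ext
    · rfl
    · by_cases h : p.1 = n
      · simp only [h, if_true]
        rw [add_assoc, CharTwo.add_self_eq_zero, add_zero]
      · simp [h]
  right_inv p := by
    ext
    · rfl
    · by_cases h : p.1 = n
      · simp only [h, if_true]
        rw [add_assoc, CharTwo.add_self_eq_zero, add_zero]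
      · simp [h]

theorem flipP_apply (n : ℤ) (p : ℤ × ZMod 2) :
    flipP n p = (p.1, if p.1 = n then p.2 + 1 else p.2) := rfl

theorem flipP_mul_self (n : ℤ) : flipP n * flipP n = 1 := by
  ext p
  · rfl
  · exact congrArg Prod.snd ((flipP n).left_inv p)

/-- reflection `x ↦ a - x` -/
def reflP (a : ℤ) : Equiv.Perm (ℤ × ZMod 2) where
  toFun p := (a - p.1, p.2)
  invFun p := (a - p.1, p.2)
  left_inv p := by ext <;> simp
  right_inv p := by ext <;> simp

theorem reflP_apply (a : ℤ) (p : ℤ × ZMod 2) : reflP a p = (a - p.1, p.2) := rfl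

theorem reflP_mul_self (a : ℤ) : reflP a * reflP a = 1 := by
  ext p
  · simp [reflP_apply]
  · simp [reflP_apply]

/-- images of the generators; `β` selects which of the letters `2`, `3` is visible -/
def thg (β : Bool) (i : Fin 4) : Equiv.Perm (ℤ × ZMod 2) :=
  if i = 0 then reflP 0 else if i = 1 then reflP 1 else
    if i = 2 then (if β then flipP 0 else 1) else (if β then 1 else flipP 0)

theorem thg_mul_self (β : Bool) (i : Fin 4) : thg β i * thg β i = 1 := by
  unfold thg
  split_ifs <;> simp [reflP_mul_self, flipP_mul_self]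

/-- test homomorphisms -/
noncomputable def th (β : Bool) : FF →* Equiv.Perm (ℤ × ZMod 2) :=
  racLift (thg β) (thg_mul_self β) (fun _ _ h => absurd h (by simp))

theorem th_fg (β : Bool) (i : Fin 4) : th β (fg i) = thg β i := by
  unfold th fg
  exact racLift_gen _ _ _ i

theorem th_ft (β : Bool) (p : ℤ × ZMod 2) : th β ft p = (p.1 + 1, p.2) := by
  unfold ft
  rw [map_mul, th_fg, th_fg]
  simp only [thg, Equiv.Perm.mul_apply]
  norm_num [reflP_apply]
  ring

theorem th_ft_pow (β : Bool) (k : ℕ) (p : ℤ × ZMod 2) :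
    th β (ft ^ k) p = (p.1 + k, p.2) := by
  induction k generalizing p with
  | zero => simp
  | succ k ih =>
    rw [pow_succ, map_mul, Equiv.Perm.mul_apply, th_ft, ih]
    ext
    · push_cast; ring
    · rfl

theorem th_ft_pow_inv (β : Bool) (k : ℕ) (p : ℤ × ZMod 2) :
    th β (ft ^ k)⁻¹ p = (p.1 - k, p.2) := by
  rw [map_inv, Equiv.Perm.inv_eq_iff_eq, th_ft_pow]
  simp

theorem th_conj_flip (β : Bool) (k : ℕ) (x : FF) (hx : th β x = flipP 0) :
    th β (ft ^ k * x * (ft ^ k)⁻¹) = flipP k := by
  ext p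
  · rw [map_mul, map_mul, Equiv.Perm.mul_apply, Equiv.Perm.mul_apply, th_ft_pow_inv, hx,
      flipP_apply, th_ft_pow, flipP_apply]
    simp
  · rw [map_mul, map_mul, Equiv.Perm.mul_apply, Equiv.Perm.mul_apply, th_ft_pow_inv, hx,
      flipP_apply, th_ft_pow, flipP_apply]
    simp [sub_eq_zero]

theorem th_conj_one (β : Bool) (k : ℕ) (x : FF) (hx : th β x = 1) :
    th β (ft ^ k * x * (ft ^ k)⁻¹) = 1 := by
  rw [map_mul, map_mul, hx, mul_one, map_inv, mul_inv_cancel]

theorem flipP_inj {m n : ℤ} (h : flipP m = flipP n) : m = n := by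
  by_contra hne
  have h1 := congrArg (fun σ : Equiv.Perm (ℤ × ZMod 2) => (σ (m, 0)).2) h
  simp [flipP_apply, hne] at h1

theorem flipP_ne_one (m : ℤ) : flipP m ≠ 1 := by
  intro h
  have h1 := congrArg (fun σ : Equiv.Perm (ℤ × ZMod 2) => (σ (m, 0)).2) h
  simp [flipP_apply] at h1

theorem th_true_zero (i : ℕ) : th true (site i 0) = 1 := by
  unfold site
  rw [if_pos rfl]
  exact th_conj_one _ _ _ (by rw [th_fg]; simp [thg])

theorem th_false_zero (i : ℕ) : th false (site i 0) = flipP i := by
  unfold site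
  rw [if_pos rfl]
  exact th_conj_flip _ _ _ (by rw [th_fg]; simp [thg])

theorem th_true_succ (i k : ℕ) : th true (site i (k + 1)) = flipP ((k + 1 : ℕ) : ℤ) := by
  unfold site
  rw [if_neg (Nat.succ_ne_zero k)]
  exact th_conj_flip _ _ _ (by rw [th_fg]; simp [thg])

theorem th_false_succ (i k : ℕ) : th false (site i (k + 1)) = 1 := by
  unfold site
  rw [if_neg (Nat.succ_ne_zero k)]
  exact th_conj_one _ _ _ (by rw [th_fg]; simp [thg])

theorem flipP_inv (n : ℤ) : (flipP n)⁻¹ = flipP n := by
  rw [inv_eq_iff_mul_eq_one]; exact flipP_mul_self n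

theorem siteOK : SiteOK site where
  inj0 i j h := by
    have h1 := congrArg (th false) h
    rw [th_false_zero, th_false_zero] at h1
    exact_mod_cast flipP_inj h1
  ne i k h := by
    have h1 := congrArg (th true) h
    rw [th_true_succ] at h1
    cases k with
    | zero =>
      rw [th_true_zero] at h1
      exact flipP_ne_one _ h1.symm
    | succ k =>
      rw [th_true_succ] at h1
      have := flipP_inj h1
      push_cast at this
      omega
  indep i j k := by
    unfold site
    rw [if_neg (Nat.succ_ne_zero k), if_neg (Nat.succ_ne_zero k)]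
  step i j N N' h := by
    have ht := congrArg (th true) h
    have hf := congrArg (th false) h
    rw [map_mul, map_mul, map_inv, map_inv] at ht hf
    rw [th_true_succ, th_true_succ, flipP_inv, flipP_inv] at ht
    rw [th_false_succ, th_false_succ, inv_one, one_mul, one_mul] at hf
    rcases Nat.eq_zero_or_pos N with h0 | h0
    · rcases Nat.eq_zero_or_pos N' with h0' | h0'
      · omega
      · subst h0
        obtain ⟨n', rfl⟩ : ∃ n', N' = n' + 1 := ⟨N' - 1, by omega⟩
        rw [th_false_zero, th_false_succ] at hf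
        exact absurd hf (flipP_ne_one _)
    · obtain ⟨n, rfl⟩ : ∃ n, N = n + 1 := ⟨N - 1, by omega⟩
      rcases Nat.eq_zero_or_pos N' with h0' | h0'
      · subst h0'
        rw [th_false_zero, th_false_succ] at hf
        exact absurd hf.symm (flipP_ne_one _)
      · obtain ⟨n', rfl⟩ : ∃ n', N' = n' + 1 := ⟨N' - 1, by omega⟩
        rw [th_true_succ, th_true_succ] at ht
        have e1 := congrArg (fun σ : Equiv.Perm (ℤ × ZMod 2) => (σ (((n + 1 + 1 : ℕ) : ℤ), 0)).2) ht
        have e2 := congrArg (fun σ : Equiv.Perm (ℤ × ZMod 2) => (σ (((n + 1 : ℕ) : ℤ), 0)).2) ht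
        simp only [Equiv.Perm.mul_apply, flipP_apply] at e1 e2
        by_contra hne
        have q1 : ¬ (((n + 1 + 1 : ℕ) : ℤ) = ((n + 1 : ℕ) : ℤ)) := by push_cast; omega
        have q2 : ¬ (((n + 1 + 1 : ℕ) : ℤ) = ((n' + 1 + 1 : ℕ) : ℤ)) := by push_cast; omega
        have q3 : ¬ (((n + 1 : ℕ) : ℤ) = ((n + 1 + 1 : ℕ) : ℤ)) := by push_cast; omega
        have q4 : ¬ (((n + 1 : ℕ) : ℤ) = ((n' + 1 : ℕ) : ℤ)) := by push_cast; omega
        simp only [q1, q2, if_true, if_false] at e1
        simp only [q3, q4, if_true, if_false] at e2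
        by_cases q5 : (((n + 1 + 1 : ℕ) : ℤ) = ((n' + 1 : ℕ) : ℤ))
        · simp at e2
          push_cast at q5
          omega
        · simp at e1
          push_cast at q5
          omega

end Pool.Agent.LibRD
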